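import Pool.Agent.N638.PC.Back
import Pool.Agent.H585R2.DiffC

set_option autoImplicit false
set_option linter.unusedSimpArgs false

/-! Integral choice of the new operator and its reductions. -/

namespace Pool.Agent.N638.PC

open Polynomial

/-- reduction modulo `p` -/
noncomputable abbrev red (p : ℕ) : ℤ[X] →+* (ZMod p)[X] := mapRingHom (Int.castRingHom (ZMod p))

theorem dvd_of_red_eq_zero (p : ℕ) (f : ℤ[X]) (h : f.map (Int.castRingHom (ZMod p)) = 0) :
    C (p : ℤ) ∣ f := by
  rw [C_dvd_iff_dvd_coeff]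
  intro i
  have := congrArg (fun g => g.coeff i) h
  simp only [coeff_map, coeff_zero, eq_intCast] at this
  exact (ZMod.intCast_zmod_eq_zero_iff_dvd _ _).1 this

theorem red_eq_zero_of_dvd (p : ℕ) (f : ℤ[X]) (h : C (p : ℤ) ∣ f) :
    f.map (Int.castRingHom (ZMod p)) = 0 := by
  obtain ⟨g, rfl⟩ := h
  simp

theorem red_ne_zero_of_primitive {p : ℕ} (hp : p.Prime) {u : ℤ[X]} (hu : u.IsPrimitive) :
    u.map (Int.castRingHom (ZMod p)) ≠ 0 := by
  intro h
  have h1 := hu _ (dvd_of_red_eq_zero p u h)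
  have := Int.isUnit_iff.1 h1
  have := hp.two_le
  omega

/-- a nonzero solution of a homogeneous linear system over `ℤ[X]` which is nonzero modulo all primes -/
theorem exists_prim (m : ℕ) (M : ℕ → ℕ → ℤ[X]) :
    ∃ v : Fin (m + 2) → ℤ[X], (∀ k ≤ m, ∑ i : Fin (m + 2), v i * M i k = 0) ∧
      ∀ p : ℕ, p.Prime → ∃ i, (v i).map (Int.castRingHom (ZMod p)) ≠ 0 := by
  classical
  -- existence of a nonzero solution
  have h1 : ∃ v : Fin (m + 2) → ℤ[X], v ≠ 0 ∧ ∀ k ≤ m, ∑ i : Fin (m + 2), v i * M i k = 0 := by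
    let A : Matrix (Fin (m + 2)) (Fin (m + 2)) ℤ[X] := Matrix.of fun i k =>
      if (k : ℕ) ≤ m then M i k else 0
    have hA : A.det = 0 := by
      refine Matrix.det_eq_zero_of_column_eq_zero (Fin.last (m + 1)) fun i => ?_
      simp only [A, Matrix.of_apply, Fin.val_last]
      rw [if_neg (by omega)]
    obtain ⟨v, hv, hvA⟩ := Matrix.exists_vecMul_eq_zero_iff.2 hA
    refine ⟨v, hv, fun k hk => ?_⟩
    have := congrFun hvA ⟨k, by omega⟩
    simp only [Matrix.vecMul, dotProduct, A, Matrix.of_apply, if_pos hk, Pi.zero_apply] at this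
    exact this
  -- minimal one
  have h2 : ∃ d : ℕ, ∃ v : Fin (m + 2) → ℤ[X], (∀ k ≤ m, ∑ i : Fin (m + 2), v i * M i k = 0) ∧
      ∃ i c, ((v i).coeff c).natAbs = d ∧ d ≠ 0 := by
    obtain ⟨v, hv, hv1⟩ := h1
    obtain ⟨i, hi⟩ : ∃ i, v i ≠ 0 := by
      by_contra hcon
      exact hv (funext fun i => by
        by_contra h
        exact hcon ⟨i, h⟩)
    obtain ⟨c, hc⟩ : ∃ c, (v i).coeff c ≠ 0 := by
      by_contra hcon
      exact hi (Polynomial.ext fun c => by
        by_contra h
        exact hcon ⟨c, h⟩)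
    exact ⟨_, v, hv1, i, c, rfl, by simpa using hc⟩
  obtain ⟨v, hv, i, c, hic, hd⟩ := Nat.find_spec h2
  refine ⟨v, hv, fun p hp => ?_⟩
  by_contra hcon
  push Not at hcon
  have hdiv : ∀ i, ∃ w, v i = C (p : ℤ) * w := fun i => dvd_of_red_eq_zero p _ (hcon i)
  choose w hw using hdiv
  have hp0 : (C (p : ℤ) : ℤ[X]) ≠ 0 := by
    rw [Ne, C_eq_zero]
    exact_mod_cast hp.ne_zero
  have hmin := Nat.find_min' h2 (m := ((w i).coeff c).natAbs) ⟨w, fun k hk => by
    have := hv k hk
    simp only [hw] at this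
    have h3 : C (p : ℤ) * ∑ i : Fin (m + 2), w i * M i k = 0 := by
      rw [Finset.mul_sum, ← this]
      exact Finset.sum_congr rfl fun i _ => by ring
    exact (mul_eq_zero.1 h3).resolve_left hp0, i, c, rfl, by
      intro h0
      apply hd
      rw [← hic, hw i, coeff_C_mul, Int.natAbs_mul, h0, mul_zero]⟩
  rw [← hic, hw i, coeff_C_mul, Int.natAbs_mul, Int.natAbs_natCast] at hmin
  have hpos : 0 < ((w i).coeff c).natAbs := by
    rcases Nat.eq_zero_or_pos ((w i).coeff c).natAbs with h0 | h0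
    · exfalso
      apply hd
      rw [← hic, hw i, coeff_C_mul, Int.natAbs_mul, h0, mul_zero]
    · exact h0
  have := hp.two_le
  nlinarith

section modp
variable (N m : ℕ) (U : ℤ[X]) (Q : ℕ → ℤ[X]) (b' : Fin (m + 2) → ℤ[X])

theorem last_ne_zero (p : ℕ) [hp : Fact p.Prime] (hb' : Rel N m U Q b')
    (hprim : ∃ i, (b' i).map (Int.castRingHom (ZMod p)) ≠ 0)
    (hU : U.map (Int.castRingHom (ZMod p)) ≠ 0)
    (hdet : (Matrix.of fun i j : Fin (m + 1) =>
      (Y N m U Q i j).map (Int.castRingHom (ZMod p))).det ≠ 0) :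
    (b' (Fin.last (m + 1))).map (Int.castRingHom (ZMod p)) ≠ 0 := by
  intro h0
  let w : Fin (m + 1) → (ZMod p)[X] := fun i => (b' i.castSucc).map (Int.castRingHom (ZMod p)) *
    (U.map (Int.castRingHom (ZMod p))) ^ (m + 1 - (i : ℕ))
  have hw : w = 0 := by
    by_contra hne
    apply hdet
    rw [← Matrix.exists_vecMul_eq_zero_iff]
    refine ⟨w, hne, ?_⟩
    funext k
    have h1 := congrArg (fun f => f.map (Int.castRingHom (ZMod p)))
      (hb' k (by have := k.2; omega))
    simp only [Polynomial.map_sum, Polynomial.map_mul, Polynomial.map_pow, Polynomial.map_zero] at h1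
    rw [Fin.sum_univ_castSucc, h0] at h1
    simp only [Fin.val_castSucc, zero_mul, add_zero] at h1
    simpa only [Matrix.vecMul, dotProduct, Matrix.of_apply, Pi.zero_apply] using h1
  obtain ⟨i, hi⟩ := hprim
  refine Fin.lastCases (fun hi => hi h0) (fun i hi => ?_) i hi
  have := congrFun hw i
  simp only [w, Pi.zero_apply] at this
  exact hi ((mul_eq_zero.1 this).resolve_right (pow_ne_zero _ hU))

theorem coeff_dvd (p h : ℕ) (hp : p.Prime) (hb' : Rel N m U Q b')
    (hU : U.map (Int.castRingHom (ZMod p)) ≠ 0) (hmp : m < p)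
    (hN : p ^ h ∣ N) (hQ : ∀ k, C ((p : ℤ) ^ h) ∣ Q k) (k : ℕ) (hk : k ≤ m) :
    C ((p : ℤ) ^ h) ∣ b' ⟨k, by omega⟩ := by
  induction k using Nat.strong_induction_on with
  | _ k ih =>
    have hY : ∀ i : ℕ, C ((p : ℤ) ^ h) ∣ Y N m U Q i k - U ^ i * derivative^[i] (X ^ k) := by
      intro i
      have e1 : (Y N m U Q i k).map (Int.castRingHom (ZMod (p ^ h)))
          = (U ^ i * derivative^[i] (X ^ k)).map (Int.castRingHom (ZMod (p ^ h))) := by
        rw [Y_map, Y_triv]
        · rw [Polynomial.map_mul, Polynomial.map_pow, iterate_derivative_X_pow_eq_natCast_mul,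
            iterate_derivative_X_pow_eq_natCast_mul]
          simp
        · exact (ZMod.natCast_eq_zero_iff _ _).2 hN
        · intro k
          have := red_eq_zero_of_dvd (p ^ h) (Q k) (by exact_mod_cast hQ k)
          exact this
      have e2 : (Y N m U Q i k - U ^ i * derivative^[i] (X ^ k)).map
          (Int.castRingHom (ZMod (p ^ h))) = 0 := by
        rw [Polynomial.map_sub, e1, sub_self]
      have := dvd_of_red_eq_zero (p ^ h) _ e2
      exact_mod_cast this
    have h1 := hb' k hk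
    have h2 : C ((p : ℤ) ^ h) ∣ ∑ i : Fin (m + 2), b' i * U ^ (m + 1) * derivative^[(i : ℕ)] (X ^ k) := by
      have e1 : ∑ i : Fin (m + 2), b' i * U ^ (m + 1) * derivative^[(i : ℕ)] (X ^ k)
          = - ∑ i : Fin (m + 2), b' i * U ^ (m + 1 - (i : ℕ)) *
            (Y N m U Q i k - U ^ (i : ℕ) * derivative^[(i : ℕ)] (X ^ k)) := by
        simp only [mul_sub, Finset.sum_sub_distrib, h1, zero_sub, neg_neg]
        refine Finset.sum_congr rfl fun i _ => ?_
        have hi : (i : ℕ) ≤ m + 1 := by have := i.2; omega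
        have e1 : U ^ (m + 1) = U ^ (m + 1 - (i : ℕ)) * U ^ (i : ℕ) := by
          rw [← pow_add]; congr 1; omega
        rw [e1]; ring
      rw [e1]
      refine (dvd_neg.2 ?_)
      exact Finset.dvd_sum fun i _ => Dvd.dvd.mul_left (hY i) _
    have hkm : k < m + 2 := by omega
    rw [← Finset.add_sum_erase _ _ (Finset.mem_univ (⟨k, hkm⟩ : Fin (m + 2)))] at h2
    have h3 : C ((p : ℤ) ^ h) ∣ ∑ i ∈ Finset.univ.erase (⟨k, hkm⟩ : Fin (m + 2)),
        b' i * U ^ (m + 1) * derivative^[(i : ℕ)] (X ^ k) := by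
      refine Finset.dvd_sum fun i hi => ?_
      have hik : (i : ℕ) ≠ k := by
        intro h
        exact Finset.ne_of_mem_erase hi (Fin.ext h)
      rcases Nat.lt_or_ge (i : ℕ) k with h4 | h4
      · have := ih i h4 (by omega)
        exact Dvd.dvd.mul_right (Dvd.dvd.mul_right this _) _
      · rw [iterate_derivative_X_pow_eq_natCast_mul, Nat.descFactorial_eq_zero_iff_lt.2 (by omega)]
        simp
    have h4 := (dvd_add_left h3).1 h2
    simp only [iterate_derivative_X_pow_eq_natCast_mul, Nat.descFactorial_self, Nat.sub_self,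
      pow_zero, mul_one] at h4
    rw [mul_assoc, C_pow] at h4
    have hpC : Prime (C (p : ℤ) : ℤ[X]) := prime_C_iff.2 (Nat.prime_iff_prime_int.1 hp)
    rw [C_pow]
    refine hpC.pow_dvd_of_dvd_mul_right h ?_ h4
    intro h5
    rcases hpC.dvd_or_dvd h5 with h6 | h6
    · exact hU (red_eq_zero_of_dvd p U (hpC.dvd_of_dvd_pow h6))
    · have h7 : (C (p : ℤ) : ℤ[X]) ∣ C ((k.factorial : ℕ) : ℤ) := by
        rw [C_eq_natCast ] at h6 ⊢
        simpa using h6
      rw [C_dvd_iff_dvd_coeff] at h7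
      have h8 := h7 0
      rw [coeff_C_zero] at h8
      have h9 : p ∣ k.factorial := by exact_mod_cast h8
      have := (hp.dvd_factorial).1 h9
      omega

end modp

end Pool.Agent.N638.PC
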