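import Pool.Agent.N638.PC.Trans

set_option autoImplicit false
set_option linter.unusedSimpArgs false

/-! Backward transfer and transport along isomorphisms. -/

namespace Pool.Agent.N638.PC

open Polynomial

section
variable {F : Type*} [Field F] (D : Derivation ℤ F F) (x : F) (hx : D x = 1)
  (N m : ℕ) (U : ℤ[X]) (Q : ℕ → ℤ[X])

theorem D_iter_zero (i : ℕ) : (⇑D)^[i] (0 : F) = 0 := Function.iterate_fixed (map_zero D) i

include hx in
/-- backward direction: from solutions of `b'` to solutions of `b` in the variable `X = x^N` -/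
theorem backward (hx0 : x ≠ 0) (hNF : (N : F) ≠ 0)
    (b : Fin (m + 2) → ℤ[X]) (e T : ℤ) (u : ℤ[X]) (hNeT : (N : ℤ) = e * T)
    (hb : b (Fin.last (m + 1)) = C e * u)
    (hU : U = expand ℤ N u) (hQ : ∀ k : Fin (m + 1), Q k = expand ℤ N (C T * b k.castSucc))
    (hU0 : aeval x U ≠ 0)
    (hdet : (Matrix.of fun i j : Fin (m + 1) => aeval x (Y N m U Q i j)).det ≠ 0)
    (b' : Fin (m + 2) → ℤ[X]) (hb' : Rel N m U Q b')
    (hb'0 : aeval x (b' (Fin.last (m + 1))) ≠ 0)
    (h : FullBasis x D (m + 1) b') :
    FullBasis (x ^ N) (((N : F) * x ^ (N - 1))⁻¹ • D) (m + 1) b := by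
  obtain ⟨z, hz1, hz2⟩ := h
  set c0 : F := (N : F) * x ^ (N - 1) with hc0
  have hc00 : c0 ≠ 0 := mul_ne_zero hNF (pow_ne_zero _ hx0)
  -- the vectors η
  have hex : ∀ j : Fin (m + 1), ∃ η : ℕ → F, ∀ i ≤ m, S x N m U Q i η = aeval x U ^ i * (⇑D)^[i] (z j) := by
    intro j
    let M : Matrix (Fin (m + 1)) (Fin (m + 1)) F := Matrix.of fun i j : Fin (m + 1) => aeval x (Y N m U Q i j)
    let r : Fin (m + 1) → F := fun i => aeval x U ^ (i : ℕ) * (⇑D)^[(i : ℕ)] (z j)
    let w : Fin (m + 1) → F := M⁻¹.mulVec r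
    refine ⟨fun k => if hk : k < m + 1 then w ⟨k, hk⟩ else 0, fun i hi => ?_⟩
    have h1 : M.mulVec w = r := by
      simp only [w]
      rw [Matrix.mulVec_mulVec, Matrix.mul_nonsing_inv _ (isUnit_iff_ne_zero.2 hdet), Matrix.one_mulVec]
    have h2 := congrFun h1 ⟨i, by omega⟩
    simp only [Matrix.mulVec, dotProduct, M, Matrix.of_apply, r] at h2
    rw [← h2, S, Finset.sum_range]
    refine Finset.sum_congr rfl fun k _ => ?_
    rw [dif_pos k.2]
  choose η hη using hex
  have hlast : ∀ j, S x N m U Q (m + 1) (η j) = aeval x U ^ (m + 1) * (⇑D)^[m + 1] (z j) := by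
    intro j
    have h1 : ∑ i : Fin (m + 2), aeval x (b' i) * aeval x U ^ (m + 1 - (i : ℕ)) *
        S x N m U Q i (η j) = 0 := by
      simp only [S, Finset.mul_sum]
      rw [Finset.sum_comm]
      refine Finset.sum_eq_zero fun k hk => ?_
      have := congrArg (fun f => aeval x f * η j k) (hb' k (by have := Finset.mem_range.1 hk; omega))
      simp only [map_sum, map_mul, map_pow, map_zero, zero_mul, Finset.sum_mul] at this
      rw [← this]
      exact Finset.sum_congr rfl fun i _ => by ring
    have h2 := congrArg (fun z => aeval x U ^ (m + 1) * z) (hz1 j)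
    simp only [Finset.mul_sum, mul_zero] at h2
    rw [Fin.sum_univ_castSucc] at h1 h2
    simp only [Fin.val_last, Fin.val_castSucc, Nat.sub_self, pow_zero, mul_one] at h1 h2
    have h3 : ∑ i : Fin (m + 1), aeval x (b' i.castSucc) * aeval x U ^ (m + 1 - (i : ℕ)) *
        S x N m U Q i (η j) = ∑ i : Fin (m + 1), aeval x U ^ (m + 1) *
          (aeval x (b' i.castSucc) * (⇑D)^[(i : ℕ)] (z j)) := by
      refine Finset.sum_congr rfl fun i _ => ?_
      have hi : (i : ℕ) ≤ m := by have := i.2; omega
      rw [hη j i hi]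
      have e1 : aeval x U ^ (m + 1) = aeval x U ^ (m + 1 - (i : ℕ)) * aeval x U ^ (i : ℕ) := by
        rw [← pow_add]; congr 1; omega
      rw [e1]; ring
    rw [h3] at h1
    have h4 : aeval x (b' (Fin.last (m + 1))) * (S x N m U Q (m + 1) (η j) -
        aeval x U ^ (m + 1) * (⇑D)^[m + 1] (z j)) = 0 := by
      linear_combination h1 - h2
    exact sub_eq_zero.1 ((mul_eq_zero.1 h4).resolve_left hb'0)
  have hall : ∀ j, ∀ i ≤ m + 1, S x N m U Q i (η j) = aeval x U ^ i * (⇑D)^[i] (z j) := by
    intro j i hi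
    rcases Nat.lt_or_ge i (m + 1) with h | h
    · exact hη j i (by omega)
    · have : i = m + 1 := by omega
      rw [this, hlast]
  -- the defects vanish
  have hdl : ∀ j, ∀ k ≤ m, dl D x N m U Q (η j) k = 0 := by
    intro j
    have h1 : ∀ i : Fin (m + 1), ∑ k : Fin (m + 1),
        (Matrix.of fun i j : Fin (m + 1) => aeval x (Y N m U Q i j)) i k *
          dl D x N m U Q (η j) k = 0 := by
      intro i
      have hi : (i : ℕ) ≤ m := by have := i.2; omega
      have h2 := S_succ D x hx N m U Q i (η j)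
      rw [hall j i (by omega), hall j (i + 1) (by omega)] at h2
      simp only [Matrix.of_apply]
      rw [Finset.sum_range] at h2
      have h3 : aeval x U * D (aeval x U ^ (i : ℕ) * (⇑D)^[(i : ℕ)] (z j))
          - (i : F) * aeval x (derivative U) * (aeval x U ^ (i : ℕ) * (⇑D)^[(i : ℕ)] (z j))
          = aeval x U ^ ((i : ℕ) + 1) * (⇑D)^[(i : ℕ) + 1] (z j) := by
        rw [Function.iterate_succ_apply', Derivation.leibniz, Derivation.leibniz_pow,
          Derivation.map_aeval, hx]
        generalize (i : ℕ) = i'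
        rcases i' with _ | i'
        · simp
        · simp only [smul_eq_mul, nsmul_eq_mul, Nat.add_sub_cancel, Nat.cast_add, Nat.cast_one]
          ring
      rw [h3] at h2
      linear_combination -h2
    have h2 := vec_zero_of_det _ hdet _ h1
    intro k hk
    exact congrFun h2 ⟨k, by omega⟩
  set D' : Derivation ℤ F F := c0⁻¹ • D with hD'
  have hD'a : ∀ g, D' g = c0⁻¹ * D g := fun g => rfl
  have hstep : ∀ j, ∀ k < m, D' (η j k) = η j (k + 1) := by
    intro j k hk
    have := hdl j k hk.le
    simp only [dl] at this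
    rw [if_pos hk] at this
    have h1 : aeval x U * (D (η j k) - c0 * η j (k + 1)) = 0 := by
      rw [hc0]; linear_combination this
    have h2 := sub_eq_zero.1 ((mul_eq_zero.1 h1).resolve_left hU0)
    rw [hD'a, h2]
    field_simp
  have hiter : ∀ j, ∀ k ≤ m, (⇑D')^[k] (η j 0) = η j k := by
    intro j k
    induction k with
    | zero => intro _; rfl
    | succ k ih =>
      intro hk
      rw [Function.iterate_succ_apply', ih (by omega), hstep j k (by omega)]
  have hexp : ∀ f : ℤ[X], aeval (x ^ N) f = aeval x (expand ℤ N f) := fun f => (expand_aeval N f x).symm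
  refine ⟨fun j => η j 0, fun j => ?_, ?_⟩
  · rw [Fin.sum_univ_castSucc]
    simp only [Fin.val_last, Fin.val_castSucc]
    rw [Function.iterate_succ_apply', hiter j m le_rfl, hexp, hb, map_mul, expand_C, ← hU, map_mul,
      aeval_C]
    have h1 := hdl j m le_rfl
    simp only [dl] at h1
    rw [if_neg (lt_irrefl m)] at h1
    have h2 : ∑ j' ∈ Finset.range (m + 1), aeval x (Q j') * η j j'
        = (T : F) * ∑ i : Fin (m + 1), aeval (x ^ N) (b i.castSucc) *
            (⇑D')^[(i : ℕ)] (η j 0) := by
      rw [Finset.sum_range, Finset.mul_sum]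
      refine Finset.sum_congr rfl fun i _ => ?_
      rw [hQ, hiter j i (by have := i.2; omega), hexp]
      simp only [map_mul, expand_C, aeval_C]
      simp
      ring
    rw [h2] at h1
    have hN' : (N : F) = (e : F) * (T : F) := by
      have := congrArg (fun z : ℤ => (z : F)) hNeT
      simpa using this
    have hT : (T : F) ≠ 0 := fun h => hNF (by rw [hN', h, mul_zero])
    have h4 : (algebraMap ℤ F) e = (e : F) := by simp
    rw [h4, hD'a]
    have h5 : (T : F) * x ^ (N - 1) *
        (∑ i : Fin (m + 1), aeval (x ^ N) (b i.castSucc) * (⇑D')^[(i : ℕ)] (η j 0) +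
          (e : F) * aeval x U * (c0⁻¹ * D (η j m))) = 0 := by
      have h6 : (e : F) * (T : F) * x ^ (N - 1) * c0⁻¹ = 1 := by
        rw [← hN', ← hc0]; exact mul_inv_cancel₀ hc00
      linear_combination h1 + (aeval x U * D (η j m)) * h6
    exact (mul_eq_zero.1 h5).resolve_left (mul_ne_zero hT (pow_ne_zero _ hx0))
  · intro c hc hsum
    have hcD : ∀ j, D (c j) = 0 := by
      intro j
      have := hc j
      rw [hD'a] at this
      exact (mul_eq_zero.1 this).resolve_left (inv_ne_zero hc00)
    have h1 : ∀ k ≤ m, ∑ j, c j * η j k = 0 := by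
      intro k hk
      have e1 := congrArg (fun z => (⇑D')^[k] z) hsum
      simp only [D_iter_zero] at e1
      rw [D_iter_sum] at e1
      rw [← e1]
      refine Finset.sum_congr rfl fun j _ => ?_
      rw [D_iter_const_mul D' _ (hc j), hiter j k hk]
    refine hz2 c hcD ?_
    have h2 : ∀ j, z j = ∑ k ∈ Finset.range (m + 1), x ^ k * η j k := by
      intro j
      have := hall j 0 (Nat.zero_le _)
      simp only [S, Y, map_pow, aeval_X, pow_zero, one_mul, Function.iterate_zero, id_eq] at this
      exact this.symm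
    simp only [h2, Finset.mul_sum]
    rw [Finset.sum_comm]
    refine Finset.sum_eq_zero fun k hk => ?_
    have := congrArg (fun z => x ^ k * z) (h1 k (by have := Finset.mem_range.1 hk; omega))
    simp only [Finset.mul_sum, mul_zero] at this
    rw [← this]
    exact Finset.sum_congr rfl fun j _ => by ring

end

section transport
variable {F G : Type*} [Field F] [Field G] (ψ : F ≃+* G) (D : Derivation ℤ F F)

/-- transport of a derivation -/
noncomputable def tr : Derivation ℤ G G :=
  Derivation.mk' ((ψ.toAddMonoidHom.comp ((D : F →ₗ[ℤ] F).toAddMonoidHom.comp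
    ψ.symm.toAddMonoidHom)).toIntLinearMap) (by
    intro a b
    simp [Derivation.leibniz])

theorem tr_apply (g : G) : tr ψ D g = ψ (D (ψ.symm g)) := rfl

theorem tr_iter (i : ℕ) (f : F) : (⇑(tr ψ D))^[i] (ψ f) = ψ ((⇑D)^[i] f) := by
  induction i with
  | zero => rfl
  | succ i ih => rw [Function.iterate_succ_apply', ih, Function.iterate_succ_apply', tr_apply,
      RingEquiv.symm_apply_apply]

theorem FullBasis.transport {x : F} {D : Derivation ℤ F F} {n : ℕ} {b : Fin (n + 1) → ℤ[X]}
    (h : FullBasis x D n b) : FullBasis (ψ x) (tr ψ D) n b := by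
  obtain ⟨y, hy1, hy2⟩ := h
  have hψa : ∀ f : ℤ[X], aeval (ψ x) f = ψ (aeval x f) := by
    intro f
    exact ((Polynomial.hom_eval₂ f (algebraMap ℤ F) (ψ : F →+* G) x).trans (by
      simp only [aeval_def]
      congr 1
      exact RingHom.ext_int _ _)).symm
  refine ⟨fun j => ψ (y j), fun j => ?_, fun c hc hsum j => ?_⟩
  · simp only [tr_iter, hψa, ← map_mul, ← map_sum, hy1 j, map_zero]
  · have h1 := hy2 (fun j => ψ.symm (c j)) (fun j => by
      have := hc j
      rw [tr_apply] at this
      exact (map_eq_zero ψ).1 this) (by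
      have := congrArg ψ.symm hsum
      simpa using this) j
    exact (map_eq_zero ψ.symm).1 h1

end transport

end Pool.Agent.N638.PC
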