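import Mathlib

set_option autoImplicit false

/-! The two conditions of the frozen statement `S18097`, verbatim, and the condition of having no exceptional prime. -/

namespace Pool.Agent.N638.PCurv

/-- `L = ∑ b_i(x) (d/dx)^i`, `i ≤ n`, has a full basis of algebraic solutions: `n` solutions in the algebraic
closure of `ℚ(x)` which are linearly independent over the field of constants (the left hand side of the frozen
statement `S18097`). -/
def FullBasisAlgebraic (n : ℕ) (b : Fin (n + 1) → Polynomial ℤ) : Prop :=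
  ∃ D : Derivation ℤ (AlgebraicClosure (RatFunc ℚ)) (AlgebraicClosure (RatFunc ℚ)),
    D (algebraMap (RatFunc ℚ) (AlgebraicClosure (RatFunc ℚ)) RatFunc.X) = 1 ∧
    ∃ y : Fin n → AlgebraicClosure (RatFunc ℚ),
      (∀ j : Fin n, ∑ i : Fin (n + 1),
          Polynomial.aeval (algebraMap (RatFunc ℚ) (AlgebraicClosure (RatFunc ℚ)) RatFunc.X) (b i)
            * (⇑D)^[(i : ℕ)] (y j) = 0) ∧
      ∀ c : Fin n → AlgebraicClosure (RatFunc ℚ), (∀ j, D (c j) = 0) →
        ∑ j : Fin n, c j * y j = 0 → ∀ j, c j = 0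

/-- The reduction of `L = ∑ b_i(x) (d/dx)^i`, `i ≤ n`, modulo the prime `p` has `n` solutions in `𝔽_p(x)` which
are linearly independent over the field of constants (the condition on `p` in `S18097`). -/
def FullBasisModP (n : ℕ) (b : Fin (n + 1) → Polynomial ℤ) (p : ℕ) [Fact (Nat.Prime p)] : Prop :=
  ∃ D : Derivation ℤ (RatFunc (ZMod p)) (RatFunc (ZMod p)),
    D (RatFunc.X : RatFunc (ZMod p)) = 1 ∧
    ∃ y : Fin n → RatFunc (ZMod p),
      (∀ j : Fin n, ∑ i : Fin (n + 1),
          Polynomial.aeval (RatFunc.X : RatFunc (ZMod p)) (b i) * (⇑D)^[(i : ℕ)] (y j) = 0) ∧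
      ∀ c : Fin n → RatFunc (ZMod p), (∀ j, D (c j) = 0) →
        ∑ j : Fin n, c j * y j = 0 → ∀ j, c j = 0

/-- `L = ∑ b_i(x) (d/dx)^i`, `i ≤ n`, has no exceptional prime: for EVERY prime number `p ≥ n` the reduction
`L_p` modulo `p` has order `n` (that is, `b_n` is not zero modulo `p`) and a full basis of rational solutions.
Moreover `L ≡ b_n (d/dx)^n` modulo `p ^ h` for the primes `n ≤ p ≤ h`. -/
def NoExceptionalPrime (h n : ℕ) (b : Fin (n + 1) → Polynomial ℤ) : Prop :=
  ∀ p : ℕ, ∀ _ : Fact (Nat.Prime p), n ≤ p →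
    (b (Fin.last n)).map (Int.castRingHom (ZMod p)) ≠ 0 ∧
    FullBasisModP n b p ∧
    (p ≤ h → ∀ i : Fin n, Polynomial.C ((p : ℤ) ^ h) ∣ b i.castSucc)

end Pool.Agent.N638.PCurv
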