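import Pool.Agent.N638.PC.Rec

set_option autoImplicit false
set_option linter.unusedSimpArgs false

/-! Differential fields: full bases of solutions of `∑ b_i D^i`. -/

namespace Pool.Agent.N638.PC

open Polynomial

/-- Let `D x = 1`. The operator `∑ b_i(x) D^i` of order `n` has `n` solutions in the differential field
`(F, D)` which are linearly independent over the constants. -/
def FullBasis {F : Type*} [Field F] (x : F) (D : Derivation ℤ F F) (n : ℕ)
    (b : Fin (n + 1) → Polynomial ℤ) : Prop :=
  ∃ y : Fin n → F,
    (∀ j : Fin n, ∑ i : Fin (n + 1), Polynomial.aeval x (b i) * (⇑D)^[(i : ℕ)] (y j) = 0) ∧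
    ∀ c : Fin n → F, (∀ j, D (c j) = 0) → ∑ j : Fin n, c j * y j = 0 → ∀ j, c j = 0

section system
variable {F : Type*} [Field F]

theorem lin_indep_of_system (D : Derivation ℤ F F) {n r : ℕ} (A : Fin r → Fin r → F)
    (Yv : Fin n → Fin r → F) (hY : ∀ j k, D (Yv j k) = ∑ l, A k l * Yv j l)
    (hc : ∀ c : Fin n → F, (∀ j, D (c j) = 0) → (∀ k, ∑ j, c j * Yv j k = 0) → ∀ j, c j = 0) :
    ∀ v : Fin n → F, (∀ k, ∑ j, v j * Yv j k = 0) → v = 0 := by
  suffices H : ∀ (d : ℕ) (s : Finset (Fin n)), s.card = d → ∀ v : Fin n → F, (∀ j, j ∉ s → v j = 0) →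
      (∀ k, ∑ j, v j * Yv j k = 0) → v = 0 from
    fun v hv => H _ Finset.univ rfl v (fun j hj => absurd (Finset.mem_univ j) hj) hv
  intro d
  induction d with
  | zero =>
    intro s hs v hv _
    rw [Finset.card_eq_zero] at hs
    funext j
    exact hv j (by simp [hs])
  | succ d ih =>
    intro s hs v hv hv0
    by_contra hne
    obtain ⟨j0, hj0⟩ : ∃ j, v j ≠ 0 := by
      by_contra hcon
      exact hne (funext fun j => by
        by_contra h
        exact hcon ⟨j, h⟩)
    have hj0s : j0 ∈ s := by
      by_contra h
      exact hj0 (hv j0 h)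
    let w : Fin n → F := fun j => v j / v j0
    have hw0 : ∀ k, ∑ j, w j * Yv j k = 0 := by
      intro k
      have := congrArg (fun z => z / v j0) (hv0 k)
      simp only [zero_div, Finset.sum_div] at this
      rw [← this]
      exact Finset.sum_congr rfl fun j _ => by simp only [w]; ring
    have hw1 : w j0 = 1 := div_self hj0
    have hDw : ∀ k, ∑ j, D (w j) * Yv j k = 0 := by
      intro k
      have h1 := congrArg D (hw0 k)
      simp only [map_sum, Derivation.leibniz, smul_eq_mul, map_zero, Finset.sum_add_distrib] at h1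
      have h2 : ∑ j, w j * D (Yv j k) = 0 := by
        simp only [hY, Finset.mul_sum]
        rw [Finset.sum_comm]
        refine Finset.sum_eq_zero fun l _ => ?_
        have := congrArg (fun z => A k l * z) (hw0 l)
        simp only [mul_zero, Finset.mul_sum] at this
        rw [← this]
        exact Finset.sum_congr rfl fun j _ => by ring
      rw [h2, zero_add] at h1
      rw [← h1]
      exact Finset.sum_congr rfl fun j _ => by ring
    have hD0 : (fun j => D (w j)) = 0 := by
      refine ih (s.erase j0) (by rw [Finset.card_erase_of_mem hj0s, hs, Nat.add_sub_cancel]) _ ?_ hDw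
      intro j hj
      by_cases hjj : j = j0
      · rw [hjj, hw1, Derivation.map_one_eq_zero]
      · have : j ∉ s := fun h => hj (Finset.mem_erase.2 ⟨hjj, h⟩)
        simp only [w, hv j this, zero_div, map_zero]
    have := hc w (fun j => congrFun hD0 j) hw0 j0
    rw [hw1] at this
    exact one_ne_zero this

end system

section rec
variable {F : Type*} [Field F] (D : Derivation ℤ F F) (x : F) (hx : D x = 1)
  (N m : ℕ) (U : ℤ[X]) (Q : ℕ → ℤ[X])

/-- the linear form with the coefficients `Y i` -/
noncomputable def S (i : ℕ) (η : ℕ → F) : F :=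
  ∑ k ∈ Finset.range (m + 1), aeval x (Y N m U Q i k) * η k

/-- the defect of the system -/
noncomputable def dl (η : ℕ → F) (k : ℕ) : F :=
  if k < m then aeval x U * D (η k) - (N : F) * x ^ (N - 1) * aeval x U * η (k + 1)
  else aeval x U * D (η k) + x ^ (N - 1) * ∑ j ∈ Finset.range (m + 1), aeval x (Q j) * η j

include hx in
theorem S_succ (i : ℕ) (η : ℕ → F) :
    aeval x U * D (S x N m U Q i η) - (i : F) * aeval x (derivative U) * S x N m U Q i η
      = S x N m U Q (i + 1) η
        + ∑ k ∈ Finset.range (m + 1), aeval x (Y N m U Q i k) * dl D x N m U Q η k := by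
  have h1 : ∀ f : ℤ[X], D (aeval x f) = aeval x (derivative f) := by
    intro f
    rw [Derivation.map_aeval, hx, smul_eq_mul, mul_one]
  have h2 : ∑ k ∈ Finset.range (m + 1), aeval x (Y N m U Q i k) * dl D x N m U Q η k
      = ∑ k ∈ Finset.range (m + 1), aeval x (Y N m U Q i k) * (aeval x U * D (η k))
        - ∑ k ∈ Finset.range m, aeval x (Y N m U Q i k) *
            ((N : F) * x ^ (N - 1) * aeval x U * η (k + 1))
        + aeval x (Y N m U Q i m) *
            (x ^ (N - 1) * ∑ j ∈ Finset.range (m + 1), aeval x (Q j) * η j) := by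
    rw [Finset.sum_range_succ, Finset.sum_range_succ]
    have : ∑ k ∈ Finset.range m, aeval x (Y N m U Q i k) * dl D x N m U Q η k
        = ∑ k ∈ Finset.range m, aeval x (Y N m U Q i k) * (aeval x U * D (η k))
          - ∑ k ∈ Finset.range m, aeval x (Y N m U Q i k) *
            ((N : F) * x ^ (N - 1) * aeval x U * η (k + 1)) := by
      rw [← Finset.sum_sub_distrib]
      refine Finset.sum_congr rfl fun k hk => ?_
      simp only [dl]
      rw [if_pos (Finset.mem_range.1 hk)]
      ring
    rw [this]
    simp only [dl]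
    rw [if_neg (lt_irrefl m)]
    ring
  have h3 : S x N m U Q (i + 1) η
      = ∑ k ∈ Finset.range (m + 1), (aeval x U * aeval x (derivative (Y N m U Q i k))
          - (i : F) * aeval x (derivative U) * aeval x (Y N m U Q i k)) * η k
        + ∑ k ∈ Finset.range m, aeval x (Y N m U Q i k) *
            ((N : F) * x ^ (N - 1) * aeval x U * η (k + 1))
        - aeval x (Y N m U Q i m) *
            (x ^ (N - 1) * ∑ j ∈ Finset.range (m + 1), aeval x (Q j) * η j) := by
    have e1 : ∑ k ∈ Finset.range m, aeval x (Y N m U Q i k) *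
            ((N : F) * x ^ (N - 1) * aeval x U * η (k + 1))
        = ∑ k ∈ Finset.range (m + 1), (if k = 0 then 0 else
            (N : F) * x ^ (N - 1) * aeval x U * aeval x (Y N m U Q i (k - 1))) * η k := by
      rw [Finset.sum_range_succ' _ m]
      simp only [if_true, zero_mul, add_zero, Nat.add_sub_cancel]
      refine Finset.sum_congr rfl fun k _ => ?_
      rw [if_neg (by omega)]
      ring
    rw [e1, Finset.mul_sum, Finset.mul_sum, ← Finset.sum_add_distrib, ← Finset.sum_sub_distrib, S]
    refine Finset.sum_congr rfl fun k _ => ?_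
    simp only [Y]
    split_ifs <;>
    · simp only [map_sub, map_add, map_mul, map_natCast, map_pow, aeval_X, map_zero]
      ring
  rw [h2, h3]
  simp only [S, map_sum, Derivation.leibniz, smul_eq_mul, h1, Finset.mul_sum]
  rw [← sub_eq_zero]
  have : ∀ k, aeval x U * (aeval x (Y N m U Q i k) * D (η k) + η k * aeval x (derivative (Y N m U Q i k)))
      = aeval x (Y N m U Q i k) * (aeval x U * D (η k))
        + aeval x U * aeval x (derivative (Y N m U Q i k)) * η k := by intro k; ring
  simp only [this, Finset.sum_add_distrib, sub_mul, Finset.sum_sub_distrib]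
  have e3 : ∑ k ∈ Finset.range (m + 1), (i : F) * aeval x (derivative U) * (aeval x (Y N m U Q i k) * η k)
      = ∑ k ∈ Finset.range (m + 1), (i : F) * aeval x (derivative U) * aeval x (Y N m U Q i k) * η k :=
    Finset.sum_congr rfl fun k _ => by ring
  rw [e3]
  ring

include hx in
theorem S_iter (η : ℕ → F) (h : ∀ k ≤ m, dl D x N m U Q η k = 0) (i : ℕ) :
    aeval x U ^ i * (⇑D)^[i] (S x N m U Q 0 η) = S x N m U Q i η := by
  induction i with
  | zero => simp
  | succ i ih =>
    have h1 := S_succ D x hx N m U Q i η
    have h2 : ∑ k ∈ Finset.range (m + 1), aeval x (Y N m U Q i k) * dl D x N m U Q η k = 0 :=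
      Finset.sum_eq_zero fun k hk => by
        rw [h k (by have := Finset.mem_range.1 hk; omega), mul_zero]
    rw [h2, add_zero, ← ih] at h1
    rw [← h1, Function.iterate_succ_apply', Derivation.leibniz, Derivation.leibniz_pow,
      Derivation.map_aeval, hx]
    rcases i with _ | i
    · simp
    · simp only [smul_eq_mul, nsmul_eq_mul, Nat.add_sub_cancel, Nat.cast_add, Nat.cast_one]
      ring

end rec

end Pool.Agent.N638.PC
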