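import Pool.Agent.N638.PC.Main
import Pool.Agent.N638.PC.Defs

set_option autoImplicit false
set_option linter.unusedSimpArgs false
set_option linter.style.haveILetI false

namespace Pool.Agent.N638.PC

open Polynomial PCurv

/-- generic version for an arbitrary structure of a `ℤ`-algebra -/
def Gen (F : Type*) [Field F] (alg : Algebra ℤ F) (x : F) (n : ℕ) (b : Fin (n + 1) → ℤ[X]) : Prop :=
  letI := alg
  ∃ D : @Derivation ℤ F F _ _ _ alg _ (AddCommGroup.toIntModule F),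
    D x = 1 ∧
    ∃ y : Fin n → F,
      (∀ j : Fin n, ∑ i : Fin (n + 1), Polynomial.aeval x (b i) * (⇑D)^[(i : ℕ)] (y j) = 0) ∧
      ∀ c : Fin n → F, (∀ j, D (c j) = 0) → ∑ j : Fin n, c j * y j = 0 → ∀ j, c j = 0

theorem Gen_congr (F : Type*) [Field F] (alg alg' : Algebra ℤ F) (x : F) (n : ℕ)
    (b : Fin (n + 1) → ℤ[X]) : Gen F alg x n b ↔ Gen F alg' x n b := by
  have : alg = alg' := Subsingleton.elim _ _
  subst this
  exact Iff.rfl

theorem alg_iff (n : ℕ) (b : Fin (n + 1) → ℤ[X]) : FullBasisAlgebraic n b ↔ AlgFull n b :=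
  Gen_congr _ _ _ _ n b

theorem modp_iff (n : ℕ) (b : Fin (n + 1) → ℤ[X]) (p : ℕ) [Fact p.Prime] :
    FullBasisModP n b p ↔ FullModP n b p :=
  Gen_congr _ _ _ _ n b

noncomputable local instance (priority := 10000) intAlg'' (p : ℕ) [Fact p.Prime] :
    Algebra ℤ (RatFunc (ZMod p)) := Ring.toIntAlgebra _

/-- One operator: the exceptional primes can be removed. -/
theorem one_operator (n : ℕ) (b : Fin (n + 1) → ℤ[X]) (hb : b (Fin.last n) ≠ 0)
    (hfull : ∃ N : ℕ, ∀ p : ℕ, N < p → ∀ _ : Fact p.Prime, FullBasisModP n b p) (h : ℕ) :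
    ∃ b' : Fin (n + 1) → ℤ[X], NoExceptionalPrime h n b' ∧
      (FullBasisAlgebraic n b' ↔ FullBasisAlgebraic n b) := by
  obtain ⟨N, hN⟩ := hfull
  rcases n with _ | m
  · refine ⟨fun _ => 1, fun p hp _ => ⟨by simp, ?_, fun _ i => i.elim0⟩, ?_⟩
    · rw [modp_iff]
      refine ⟨(H585R2.DiffC.ddt (k := ZMod p)).restrictScalars ℤ, H585R2.DiffC.ddt_X,
        fun i => i.elim0, fun i => i.elim0, fun _ _ _ i => i.elim0⟩
    · constructor
      · rintro ⟨D, hD, -⟩
        exact ⟨D, hD, fun i => i.elim0, fun i => i.elim0, fun _ _ _ i => i.elim0⟩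
      · rintro ⟨D, hD, -⟩
        exact ⟨D, hD, fun i => i.elim0, fun i => i.elim0, fun _ _ _ i => i.elim0⟩
  · obtain ⟨b', h1, h2⟩ := main_step m b hb N h
      (fun p hp hpF => (modp_iff _ _ _).1 (hN p hp hpF))
    refine ⟨b', fun p hpF hmp => ?_, ?_⟩
    · obtain ⟨h3, h4, h5⟩ := h1 p hpF hmp
      exact ⟨h3, (modp_iff _ _ _).2 h4, h5⟩
    · rw [alg_iff, alg_iff]
      exact h2

end Pool.Agent.N638.PC
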