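import Pool.Agent.N638.PC.RatF

set_option autoImplicit false
set_option linter.unusedSimpArgs false
set_option linter.style.haveILetI false

/-! Removal of the exceptional primes. -/

namespace Pool.Agent.N638.PC

open Polynomial

section alg

theorem exists_equiv {k L M : Type*} [Field k] [Field L] [Field M] [IsAlgClosed L] [IsAlgClosed M]
    (κ : k →+* L) (ι : k →+* M) (hκ : κ.IsIntegral) (hι : ι.IsIntegral) :
    ∃ ψ : L ≃+* M, ∀ z, ψ (κ z) = ι z := by
  letI := κ.toAlgebra
  letI := ι.toAlgebra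
  haveI : IsAlgClosure k L := ⟨inferInstance, ⟨fun z => (isAlgebraic_iff_isIntegral).2 (hκ z)⟩⟩
  haveI : IsAlgClosure k M := ⟨inferInstance, ⟨fun z => (isAlgebraic_iff_isIntegral).2 (hι z)⟩⟩
  exact ⟨(IsAlgClosure.equiv k L M : L ≃+* M), fun z => (IsAlgClosure.equiv k L M).commutes z⟩

theorem integral_subst {B : Type*} [Field B] (f g : RatFunc ℚ →+* B) (N : ℕ) (hN : 0 < N)
    (hX : g RatFunc.X ^ N = f RatFunc.X) (z : RatFunc ℚ) : f.IsIntegralElem (g z) := by
  letI := f.toAlgebra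
  have hgX : IsIntegral (RatFunc ℚ) (g RatFunc.X) := by
    refine ⟨Polynomial.X ^ N - Polynomial.C RatFunc.X, monic_X_pow_sub_C _ hN.ne', ?_⟩
    rw [eval₂_sub, eval₂_pow, eval₂_X, eval₂_C, hX]
    exact sub_self _
  have hpoly : ∀ p : ℚ[X], IsIntegral (RatFunc ℚ) (g (algebraMap ℚ[X] (RatFunc ℚ) p)) := by
    intro p
    induction p using Polynomial.induction_on' with
    | add p q hp hq => rw [map_add, map_add]; exact hp.add hq
    | monomial n a =>
      rw [← C_mul_X_pow_eq_monomial, map_mul, map_mul, map_pow, map_pow, RatFunc.algebraMap_X]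
      refine IsIntegral.mul ?_ (hgX.pow n)
      have h1 : g (algebraMap ℚ[X] (RatFunc ℚ) (C a)) = f (algebraMap ℚ[X] (RatFunc ℚ) (C a)) :=
        congrArg (fun h : ℚ →+* B => h a)
          (Subsingleton.elim (((g.comp (algebraMap ℚ[X] (RatFunc ℚ))).comp C) : ℚ →+* B)
            ((f.comp (algebraMap ℚ[X] (RatFunc ℚ))).comp C))
      rw [h1]
      exact isIntegral_algebraMap
  have := RatFunc.num_div_denom z
  rw [← this, map_div₀, div_eq_mul_inv]
  exact IsIntegral.mul (hpoly _) (hpoly _).inv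

theorem exists_substQ (N : ℕ) (hN : 0 < N) :
    ∃ φ : RatFunc ℚ →+* RatFunc ℚ, φ RatFunc.X = RatFunc.X ^ N := by
  have hinj : Function.Injective (expand ℚ N) := expand_injective hN
  have hnz : nonZeroDivisors ℚ[X] ≤ Submonoid.comap (expand ℚ N) (nonZeroDivisors ℚ[X]) := by
    intro f hf
    rw [Submonoid.mem_comap, mem_nonZeroDivisors_iff_ne_zero]
    exact fun h => nonZeroDivisors.ne_zero hf (hinj (by rw [h, map_zero]))
  refine ⟨RatFunc.mapRingHom (expand ℚ N) hnz, ?_⟩
  have := RatFunc.map_apply_div (expand ℚ N) hnz X 1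
  simp only [map_one, div_one] at this
  rw [expand_X, RatFunc.algebraMap_X, map_pow, RatFunc.algebraMap_X] at this
  exact this

/-- the algebraic closure of `ℚ(x)` -/
abbrev Om : Type := AlgebraicClosure (RatFunc ℚ)

noncomputable local instance (priority := 10000) intAlgOm : Algebra ℤ Om := Ring.toIntAlgebra _

/-- the variable `x` in the algebraic closure of `ℚ(x)` -/
noncomputable abbrev xx : Om := algebraMap (RatFunc ℚ) Om RatFunc.X

/-- full basis of algebraic solutions -/
def AlgFull (n : ℕ) (b : Fin (n + 1) → Polynomial ℤ) : Prop :=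
  ∃ D : Derivation ℤ Om Om, D xx = 1 ∧ FullBasis xx D n b

theorem exists_psi (N : ℕ) (hN : 0 < N) : ∃ ψ : Om ≃+* Om, ψ (xx ^ N) = xx := by
  obtain ⟨φ, hφ⟩ := exists_substQ N hN
  have h1 : φ.IsIntegral := fun z => integral_subst φ (RingHom.id _) N hN (by rw [hφ]; rfl) z
  have h2 : (algebraMap (RatFunc ℚ) Om).IsIntegral := fun z =>
    Algebra.IsIntegral.isIntegral (R := RatFunc ℚ) z
  obtain ⟨ψ, hψ⟩ := exists_equiv ((algebraMap (RatFunc ℚ) Om).comp φ) (algebraMap (RatFunc ℚ) Om)
    (RingHom.IsIntegral.trans _ _ h1 h2) h2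
  refine ⟨ψ, ?_⟩
  have := hψ RatFunc.X
  rw [RingHom.comp_apply, hφ, map_pow] at this
  exact this

theorem aeval_xx_ne {f : ℤ[X]} (hf : f ≠ 0) : aeval xx f ≠ 0 := by
  have h1 : aeval xx f = algebraMap (RatFunc ℚ) Om (algebraMap ℚ[X] (RatFunc ℚ)
      (f.map (Int.castRingHom ℚ))) := by
    rw [aeval_def, Polynomial.map, hom_eval₂, hom_eval₂]
    rw [RatFunc.algebraMap_X]
    congr 1
    exact RingHom.ext_int _ _
  rw [h1, Ne, map_eq_zero, map_eq_zero_iff _ (RatFunc.algebraMap_injective ℚ)]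
  exact (Polynomial.map_ne_zero_iff (RingHom.injective_int (Int.castRingHom ℚ))).2 hf

theorem xx_ne : xx ≠ 0 := by
  have := aeval_xx_ne (f := (X : ℤ[X])) X_ne_zero
  rwa [aeval_X] at this

end alg

section main

noncomputable local instance (priority := 10000) intAlg' (p : ℕ) [Fact p.Prime] :
    Algebra ℤ (RatFunc (ZMod p)) := Ring.toIntAlgebra _

noncomputable local instance (priority := 10000) intAlgOm' : Algebra ℤ Om := Ring.toIntAlgebra _

/-- Removal of the exceptional primes. -/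
theorem main_step (m : ℕ) (b : Fin (m + 2) → ℤ[X]) (hb : b (Fin.last (m + 1)) ≠ 0) (N0 H0 : ℕ)
    (hfull : ∀ p : ℕ, N0 < p → ∀ _ : Fact p.Prime, FullModP (m + 1) b p) :
    ∃ b' : Fin (m + 2) → ℤ[X],
      (∀ p : ℕ, ∀ _ : Fact p.Prime, m + 1 ≤ p →
        (b' (Fin.last (m + 1))).map (Int.castRingHom (ZMod p)) ≠ 0 ∧ FullModP (m + 1) b' p ∧
        (p ≤ H0 → ∀ i : Fin (m + 1), C ((p : ℤ) ^ H0) ∣ b' i.castSucc)) ∧
      (AlgFull (m + 1) b' ↔ AlgFull (m + 1) b) := by
  classical
  -- content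
  obtain ⟨e, u, he, hu, hbe⟩ : ∃ (e : ℕ) (u : ℤ[X]), e ≠ 0 ∧ u.IsPrimitive ∧
      b (Fin.last (m + 1)) = C (e : ℤ) * u := by
    refine ⟨(b (Fin.last (m + 1))).content.natAbs, (b (Fin.last (m + 1))).primPart, ?_,
      isPrimitive_primPart _, ?_⟩
    · rw [Int.natAbs_ne_zero]
      exact fun h => hb (content_eq_zero_iff.1 h)
    · have h1 : 0 ≤ (b (Fin.last (m + 1))).content :=
        Int.nonneg_of_normalize_eq_self normalize_content
      rw [Int.natCast_natAbs, abs_of_nonneg h1]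
      exact eq_C_content_mul_primPart _
  set T : ℕ := e * (N0.factorial * (((m + 1) * (m + 1) + 1) * (H0.factorial ^ H0))) with hT
  set N : ℕ := e * T with hNdef
  have hT0 : 0 < T := by positivity
  have hN0 : 0 < N := by positivity
  have heT : (N : ℤ) = (e : ℤ) * (T : ℤ) := by rw [hNdef]; push_cast; ring
  have hNm : (m + 1) * m < N := by
    have h1 : 1 ≤ e := Nat.one_le_iff_ne_zero.2 he
    have h2 : 1 ≤ N0.factorial := Nat.factorial_pos _
    have h3 : 1 ≤ H0.factorial ^ H0 := Nat.one_le_pow _ _ (Nat.factorial_pos _)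
    calc (m + 1) * m < 1 * (1 * (1 * (((m + 1) * (m + 1) + 1) * 1))) := by ring_nf; omega
      _ ≤ e * (e * (N0.factorial * (((m + 1) * (m + 1) + 1) * (H0.factorial ^ H0)))) :=
        Nat.mul_le_mul h1 (Nat.mul_le_mul h1 (Nat.mul_le_mul h2 (Nat.mul_le_mul le_rfl h3)))
  set U : ℤ[X] := expand ℤ N u with hU
  set Q : ℕ → ℤ[X] := fun k => expand ℤ N (C (T : ℤ) *
    (if hk : k < m + 1 then b (Fin.castSucc ⟨k, hk⟩) else 0)) with hQdef
  have hQ : ∀ k : Fin (m + 1), Q k = expand ℤ N (C (T : ℤ) * b k.castSucc) := by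
    intro k
    simp only [hQdef]
    rw [dif_pos k.2]
  obtain ⟨b', hb', hprim⟩ := exists_prim m (fun i k => U ^ (m + 1 - i) * Y N m U Q i k)
  have hrel : Rel N m U Q b' := by
    intro k hk
    have := hb' k hk
    simpa only [mul_assoc] using this
  -- reductions of U
  have hUred : ∀ p : ℕ, p.Prime → U.map (Int.castRingHom (ZMod p)) ≠ 0 := by
    intro p hp
    haveI : Fact p.Prime := ⟨hp⟩
    rw [hU, map_expand]
    intro h
    exact red_ne_zero_of_primitive hp hu ((expand_eq_zero hN0).1 h)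
  -- primes dividing N divide T
  have hpT : ∀ p : ℕ, p.Prime → p ∣ N → p ∣ T := by
    intro p hp h
    rcases (hp.dvd_mul).1 h with h | h
    · exact Dvd.dvd.mul_right h _
    · exact h
  have hQT : ∀ d : ℕ, d ∣ T → ∀ k, C (d : ℤ) ∣ Q k := by
    intro d hd k
    simp only [hQdef]
    rw [map_mul, expand_C]
    refine Dvd.dvd.mul_right ?_ _
    exact (C : ℤ →+* ℤ[X]).map_dvd (by exact_mod_cast hd)
  -- determinants
  have hdet : ∀ p : ℕ, ∀ _ : Fact p.Prime, m + 1 ≤ p → (Matrix.of fun i j : Fin (m + 1) =>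
      (Y N m U Q i j).map (Int.castRingHom (ZMod p))).det ≠ 0 := by
    intro p hpF hmp
    have hp := hpF.out
    simp only [Y_map]
    by_cases hpN : p ∣ N
    · refine det_Y_triv_ne N m _ _ (hUred p hp) ((ZMod.natCast_eq_zero_iff _ _).2 hpN)
        (fun k => red_eq_zero_of_dvd p _ (hQT p (hpT p hp hpN) k)) ?_
      rw [Ne, ZMod.natCast_eq_zero_iff]
      intro h
      have := (hp.dvd_factorial).1 h
      omega
    · have h1 : U.map (Int.castRingHom (ZMod p)) = expand (ZMod p) N (u.map (Int.castRingHom (ZMod p))) := by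
        rw [hU, map_expand]
      have h2 : (fun k => (Q k).map (Int.castRingHom (ZMod p))) = fun k => expand (ZMod p) N
          ((C (T : ℤ) * (if hk : k < m + 1 then b (Fin.castSucc ⟨k, hk⟩) else 0)).map
            (Int.castRingHom (ZMod p))) := by
        funext k
        simp only [hQdef]
        rw [map_expand]
      rw [h1, h2]
      refine det_Y_ne N m _ _ (red_ne_zero_of_primitive hp hu) ?_ hNm
      rw [Ne, ZMod.natCast_eq_zero_iff]
      exact hpN
  have hlast : ∀ p : ℕ, ∀ _ : Fact p.Prime, m + 1 ≤ p →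
      (b' (Fin.last (m + 1))).map (Int.castRingHom (ZMod p)) ≠ 0 := by
    intro p hpF hmp
    exact last_ne_zero N m U Q b' p hrel (hprim p hpF.out) (hUred p hpF.out) (hdet p hpF hmp)
  refine ⟨b', fun p hpF hmp => ⟨hlast p hpF hmp, ?_, ?_⟩, ?_⟩
  · -- full basis modulo p
    have hp := hpF.out
    by_cases hpN : p ∣ N
    · exact fullModP_triv N m U Q b' hrel (hUred p hp) (by omega) hpN (hQT p (hpT p hp hpN))
    · have hpN0 : N0 < p := by
        by_contra h
        apply hpN
        have h1 : p ∣ N0.factorial := (hp.dvd_factorial).2 (by omega)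
        exact Dvd.dvd.mul_left (Dvd.dvd.mul_left (Dvd.dvd.mul_right h1 _) _) _
      have hpe : ¬ p ∣ e := fun h => hpN (Dvd.dvd.mul_right h _)
      obtain ⟨D, hD, hfb⟩ := hfull p hpN0 hpF
      obtain ⟨φ, hφX, hφD⟩ := exists_subst N hN0 D hD
      refine ⟨D, hD, ?_⟩
      refine forward D RatFunc.X hD N m U Q D RatFunc.X φ hφX hφD b e T u heT hbe hU hQ
        (aeval_ne (hUred p hp)) ?_ (det_aeval_ne _ (hdet p hpF hmp)) b' hrel hfb
      have h1 : (((e : ℕ) : ℤ) : RatFunc (ZMod p))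
          = algebraMap (ZMod p)[X] (RatFunc (ZMod p)) (C ((e : ℕ) : ZMod p)) := by
        rw [map_natCast (C : ZMod p →+* (ZMod p)[X]), map_natCast, Int.cast_natCast]
      rw [h1]
      refine RatFunc.algebraMap_ne_zero ?_
      rw [Ne, C_eq_zero, ZMod.natCast_eq_zero_iff]
      exact hpe
  · intro hpH i
    have hp := hpF.out
    have h1 : p ^ H0 ∣ T := by
      have h2 : p ^ H0 ∣ H0.factorial ^ H0 := pow_dvd_pow_of_dvd ((hp.dvd_factorial).2 hpH) _
      exact Dvd.dvd.mul_left (Dvd.dvd.mul_left (Dvd.dvd.mul_left h2 _) _) _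
    have h3 := coeff_dvd N m U Q b' p H0 hp hrel (hUred p hp) (by omega)
      (Dvd.dvd.mul_left h1 _) (fun k => by exact_mod_cast hQT _ h1 k) i (by have := i.2; omega)
    exact h3
  · obtain ⟨p, hmp, hp⟩ := Nat.exists_infinite_primes (m + 1)
    haveI hpF : Fact p.Prime := ⟨hp⟩
    have hU0 : U ≠ 0 := fun h => hUred p hp (by rw [h, Polynomial.map_zero])
    have hb'0 : b' (Fin.last (m + 1)) ≠ 0 := fun h =>
      hlast p hpF hmp (by rw [h, Polynomial.map_zero])
    have hdetZ : (Matrix.of fun i j : Fin (m + 1) => Y N m U Q i j).det ≠ 0 := by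
      intro h
      apply hdet p hpF hmp
      have : (Matrix.of fun i j : Fin (m + 1) => (Y N m U Q i j).map (Int.castRingHom (ZMod p)))
          = (mapRingHom (Int.castRingHom (ZMod p))).mapMatrix
            (Matrix.of fun i j : Fin (m + 1) => Y N m U Q i j) := by
        ext1 i j; rfl
      rw [this, ← RingHom.map_det, h, map_zero]
    have hdetO : (Matrix.of fun i j : Fin (m + 1) => aeval xx (Y N m U Q i j)).det ≠ 0 := by
      have : (Matrix.of fun i j : Fin (m + 1) => aeval xx (Y N m U Q i j))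
          = ((aeval xx : ℤ[X] →ₐ[ℤ] Om) : ℤ[X] →+* Om).mapMatrix
            (Matrix.of fun i j : Fin (m + 1) => Y N m U Q i j) := by
        ext1 i j; rfl
      rw [this, ← RingHom.map_det]
      exact aeval_xx_ne hdetZ
    have hNO : (N : Om) ≠ 0 := by exact_mod_cast hN0.ne'
    obtain ⟨ψ, hψ⟩ := exists_psi N hN0
    have h3 : ψ.symm xx = xx ^ N := ψ.injective (by rw [RingEquiv.apply_symm_apply, hψ])
    have hc0 : (N : Om) * xx ^ (N - 1) ≠ 0 := mul_ne_zero hNO (pow_ne_zero _ xx_ne)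
    constructor
    · rintro ⟨D, hD, hfb⟩
      have h1 := backward D xx hD N m U Q xx_ne hNO b e T u heT hbe hU hQ (aeval_xx_ne hU0) hdetO
        b' hrel (aeval_xx_ne hb'0) hfb
      have h2 := h1.transport ψ
      rw [hψ] at h2
      refine ⟨_, ?_, h2⟩
      rw [tr_apply, h3]
      have h4 : (((N : Om) * xx ^ (N - 1))⁻¹ • D) (xx ^ N) = 1 := by
        rw [Derivation.smul_apply, Derivation.leibniz_pow, hD, smul_eq_mul, nsmul_eq_mul,
          smul_eq_mul, mul_one]
        exact inv_mul_cancel₀ hc0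
      rw [h4, map_one]
    · rintro ⟨D, hD, hfb⟩
      let D' : Derivation ℤ Om Om := ((N : Om) * xx ^ (N - 1)) • tr ψ.symm D
      have hD' : D' xx = 1 := by
        have h4 : tr ψ.symm D (xx ^ N) = 1 := by
          rw [tr_apply]
          change ψ.symm (D (ψ (xx ^ N))) = 1
          rw [hψ, hD, map_one]
        rw [Derivation.leibniz_pow, smul_eq_mul, nsmul_eq_mul] at h4
        change ((N : Om) * xx ^ (N - 1)) * (tr ψ.symm D) xx = 1
        rw [← h4]; ring
      refine ⟨D', hD', ?_⟩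
      refine forward D' xx hD' N m U Q D xx (ψ.symm : Om →+* Om) h3 ?_ b e T u heT hbe hU hQ
        (aeval_xx_ne hU0) (by exact_mod_cast he) hdetO b' hrel hfb
      intro g
      change ((N : Om) * xx ^ (N - 1)) * (ψ.symm (D (ψ (ψ.symm g)))) = _
      rw [RingEquiv.apply_symm_apply]
      rfl

end main

end Pool.Agent.N638.PC
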