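import Pool.Agent.N638.PC.Arith

set_option autoImplicit false
set_option linter.unusedSimpArgs false

/-! Full bases of rational solutions modulo `p`. -/

namespace Pool.Agent.N638.PC

open Polynomial

noncomputable local instance (priority := 10000) intAlg (p : ℕ) [Fact p.Prime] : Algebra ℤ (RatFunc (ZMod p)) :=
  Ring.toIntAlgebra _

/-- The reduction modulo `p` of the operator `∑ b_i(x) (d/dx)^i` has a full basis of rational solutions. -/
def FullModP (n : ℕ) (b : Fin (n + 1) → Polynomial ℤ) (p : ℕ) [Fact p.Prime] : Prop :=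
  ∃ D : Derivation ℤ (RatFunc (ZMod p)) (RatFunc (ZMod p)),
    D (RatFunc.X : RatFunc (ZMod p)) = 1 ∧ FullBasis (RatFunc.X : RatFunc (ZMod p)) D n b

variable {p : ℕ} [hp : Fact p.Prime]

theorem D_poly (D : Derivation ℤ (RatFunc (ZMod p)) (RatFunc (ZMod p)))
    (hD : D (RatFunc.X : RatFunc (ZMod p)) = 1) (f : (ZMod p)[X]) :
    D ((algebraMap (Polynomial (ZMod p)) (RatFunc (ZMod p))) f)
      = (algebraMap (Polynomial (ZMod p)) (RatFunc (ZMod p))) (derivative f) := by
  induction f using Polynomial.induction_on' with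
  | add f g hf hg => rw [map_add, map_add, derivative_add, map_add, hf, hg]
  | monomial n a =>
    rw [← C_mul_X_pow_eq_monomial, map_mul, map_pow, RatFunc.algebraMap_X, derivative_mul,
      derivative_C, zero_mul, zero_add, derivative_X_pow, Derivation.leibniz,
      Derivation.leibniz_pow, hD]
    have h1 : (algebraMap (Polynomial (ZMod p)) (RatFunc (ZMod p))) (C a) =
        ((ZMod.val a : ℕ) : RatFunc (ZMod p)) := by
      have h2 : (C a : (ZMod p)[X]) = ((ZMod.val a : ℕ) : (ZMod p)[X]) := by
        conv_lhs => rw [← ZMod.natCast_zmod_val a]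
        exact Polynomial.C_eq_natCast _
      rw [h2, map_natCast]
    rw [h1, Derivation.map_natCast, ← h1]
    simp [RatFunc.algebraMap_X]

theorem aeval_eq (b : ℤ[X]) : Polynomial.aeval (RatFunc.X : RatFunc (ZMod p)) b =
    (algebraMap (Polynomial (ZMod p)) (RatFunc (ZMod p))) (b.map (Int.castRingHom (ZMod p))) := by
  rw [aeval_def, ← RatFunc.algebraMap_X, Polynomial.map, hom_eval₂]
  congr 1
  exact RingHom.ext_int _ _

theorem aeval_ne {b : ℤ[X]} (h : b.map (Int.castRingHom (ZMod p)) ≠ 0) :
    Polynomial.aeval (RatFunc.X : RatFunc (ZMod p)) b ≠ 0 := by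
  rw [aeval_eq]
  exact RatFunc.algebraMap_ne_zero h

theorem det_aeval_ne {r : ℕ} (M : ℕ → ℕ → ℤ[X])
    (h : (Matrix.of fun i j : Fin r => (M i j).map (Int.castRingHom (ZMod p))).det ≠ 0) :
    (Matrix.of fun i j : Fin r => aeval (RatFunc.X : RatFunc (ZMod p)) (M i j)).det ≠ 0 := by
  have : (Matrix.of fun i j : Fin r => aeval (RatFunc.X : RatFunc (ZMod p)) (M i j))
      = (algebraMap (ZMod p)[X] (RatFunc (ZMod p))).mapMatrix
        (Matrix.of fun i j : Fin r => (M i j).map (Int.castRingHom (ZMod p))) := by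
    ext1 i j
    simp only [Matrix.of_apply, RingHom.mapMatrix_apply, Matrix.map_apply]
    exact aeval_eq _
  rw [this, ← RingHom.map_det]
  exact RatFunc.algebraMap_ne_zero h

/-- the substitution `X ↦ X^N` -/
theorem exists_subst (N : ℕ) (hN : 0 < N) (D : Derivation ℤ (RatFunc (ZMod p)) (RatFunc (ZMod p)))
    (hD : D (RatFunc.X : RatFunc (ZMod p)) = 1) :
    ∃ φ : RatFunc (ZMod p) →+* RatFunc (ZMod p), φ RatFunc.X = RatFunc.X ^ N ∧
      ∀ g, D (φ g) = (N : RatFunc (ZMod p)) * RatFunc.X ^ (N - 1) * φ (D g) := by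
  have hinj : Function.Injective (expand (ZMod p) N) := expand_injective hN
  have hnz : nonZeroDivisors (ZMod p)[X] ≤
      Submonoid.comap (expand (ZMod p) N) (nonZeroDivisors (ZMod p)[X]) := by
    intro f hf
    rw [Submonoid.mem_comap, mem_nonZeroDivisors_iff_ne_zero]
    exact fun h => nonZeroDivisors.ne_zero hf (hinj (by rw [h, map_zero]))
  let φ : RatFunc (ZMod p) →+* RatFunc (ZMod p) := RatFunc.mapRingHom (expand (ZMod p) N) hnz
  have hφ : ∀ f : (ZMod p)[X], φ (algebraMap _ _ f) = algebraMap _ _ (expand (ZMod p) N f) := by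
    intro f
    have := RatFunc.map_apply_div (expand (ZMod p) N) hnz f 1
    simp only [map_one, div_one] at this
    exact this
  refine ⟨φ, ?_, fun g => ?_⟩
  · have := hφ X
    rwa [expand_X, RatFunc.algebraMap_X, map_pow, RatFunc.algebraMap_X] at this
  · have hpoly : ∀ f : (ZMod p)[X], D (φ (algebraMap _ _ f)) =
        (N : RatFunc (ZMod p)) * RatFunc.X ^ (N - 1) * φ (D (algebraMap _ _ f)) := by
      intro f
      rw [hφ, D_poly D hD, D_poly D hD, hφ, derivative_expand]
      simp only [map_mul, map_natCast, map_pow, RatFunc.algebraMap_X]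
      ring
    have hg : g * algebraMap _ _ g.denom = algebraMap (ZMod p)[X] (RatFunc (ZMod p)) g.num := by
      have := RatFunc.num_div_denom g
      have hd : algebraMap (ZMod p)[X] (RatFunc (ZMod p)) g.denom ≠ 0 :=
        RatFunc.algebraMap_ne_zero (RatFunc.denom_ne_zero g)
      rw [← eq_div_iff hd]
      exact this.symm
    have hd : φ (algebraMap (ZMod p)[X] (RatFunc (ZMod p)) g.denom) ≠ 0 := by
      intro h
      exact RatFunc.algebraMap_ne_zero (RatFunc.denom_ne_zero g) ((map_eq_zero φ).1 h)
    have h1 := hpoly g.num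
    rw [← hg, map_mul, Derivation.leibniz, Derivation.leibniz] at h1
    simp only [smul_eq_mul, map_add, map_mul] at h1
    rw [hpoly] at h1
    have h2 : φ (algebraMap (ZMod p)[X] (RatFunc (ZMod p)) g.denom) *
        (D (φ g) - (N : RatFunc (ZMod p)) * RatFunc.X ^ (N - 1) * φ (D g)) = 0 := by
      linear_combination h1
    exact sub_eq_zero.1 ((mul_eq_zero.1 h2).resolve_left hd)

/-- the trivial case: the powers `1, x, …, x^m` are a full basis -/
theorem fullModP_triv {p : ℕ} [hp : Fact p.Prime] (N m : ℕ) (U : ℤ[X]) (Q : ℕ → ℤ[X]) (b' : Fin (m + 2) → ℤ[X])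
    (hb' : Rel N m U Q b') (hU : U.map (Int.castRingHom (ZMod p)) ≠ 0) (hmp : m < p)
    (hN : p ∣ N) (hQ : ∀ k, C (p : ℤ) ∣ Q k) : FullModP (m + 1) b' p := by
  let D : Derivation ℤ (RatFunc (ZMod p)) (RatFunc (ZMod p)) :=
    (H585R2.DiffC.ddt (k := ZMod p)).restrictScalars ℤ
  have hD : D RatFunc.X = 1 := H585R2.DiffC.ddt_X
  have hDi : ∀ (i : ℕ) (f : (ZMod p)[X]), (⇑D)^[i] (algebraMap _ _ f) =
      algebraMap _ (RatFunc (ZMod p)) (derivative^[i] f) := by
    intro i
    induction i with
    | zero => intro f; rfl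
    | succ i ih => intro f; rw [Function.iterate_succ_apply', ih, D_poly D hD,
        ← Function.iterate_succ_apply' (⇑derivative) i f]
  have hfac : ((m.factorial : ℕ) : ZMod p) ≠ 0 := by
    rw [Ne, ZMod.natCast_eq_zero_iff]
    intro h
    have := (hp.out.dvd_factorial).1 h
    omega
  refine ⟨D, hD, fun j => RatFunc.X ^ (j : ℕ), fun j => ?_, fun c hc hsum => ?_⟩
  · have hj : (j : ℕ) ≤ m := by have := j.2; omega
    have h1 := congrArg (fun f => f.map (Int.castRingHom (ZMod p))) (hb' j hj)
    simp only [Polynomial.map_sum, Polynomial.map_mul, Polynomial.map_pow, Polynomial.map_zero,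
      Y_map] at h1
    have h2 : ∀ i : ℕ, Y N m (U.map (Int.castRingHom (ZMod p)))
        (fun k => (Q k).map (Int.castRingHom (ZMod p))) i j
        = (U.map (Int.castRingHom (ZMod p))) ^ i * derivative^[i] (X ^ (j : ℕ)) :=
      fun i => Y_triv N m _ _ ((ZMod.natCast_eq_zero_iff _ _).2 hN)
        (fun k => red_eq_zero_of_dvd p _ (hQ k)) i j
    simp only [h2] at h1
    have h3 : (U.map (Int.castRingHom (ZMod p))) ^ (m + 1) *
        ∑ i : Fin (m + 2), (b' i).map (Int.castRingHom (ZMod p)) *
          derivative^[(i : ℕ)] (X ^ (j : ℕ)) = 0 := by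
      rw [← h1, Finset.mul_sum]
      refine Finset.sum_congr rfl fun i _ => ?_
      have hi : (i : ℕ) ≤ m + 1 := by have := i.2; omega
      have e1 : (U.map (Int.castRingHom (ZMod p))) ^ (m + 1)
          = (U.map (Int.castRingHom (ZMod p))) ^ (m + 1 - (i : ℕ)) *
            (U.map (Int.castRingHom (ZMod p))) ^ (i : ℕ) := by
        rw [← pow_add]; congr 1; omega
      rw [e1]; ring
    have h4 := (mul_eq_zero.1 h3).resolve_left (pow_ne_zero _ hU)
    have h5 := congrArg (algebraMap (ZMod p)[X] (RatFunc (ZMod p))) h4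
    rw [map_sum, map_zero] at h5
    rw [← h5]
    refine Finset.sum_congr rfl fun i _ => ?_
    rw [map_mul, aeval_eq, ← hDi, map_pow, RatFunc.algebraMap_X]
  · have h1 : ∀ i : Fin (m + 1), ∑ j : Fin (m + 1),
        (Matrix.of fun i j : Fin (m + 1) => algebraMap (ZMod p)[X] (RatFunc (ZMod p))
          (Y N m 1 (fun _ => 0) i j)) i j * c j = 0 := by
      intro i
      have e1 := congrArg (fun z => (⇑D)^[(i : ℕ)] z) hsum
      simp only [D_iter_zero] at e1
      rw [D_iter_sum] at e1
      rw [← e1]
      refine Finset.sum_congr rfl fun j _ => ?_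
      rw [D_iter_const_mul D _ (hc j), ← RatFunc.algebraMap_X, ← map_pow, hDi, Matrix.of_apply,
        Y_triv N m 1 _ ((ZMod.natCast_eq_zero_iff _ _).2 hN) (fun _ => rfl), one_pow, one_mul]
      ring
    have hdet : (Matrix.of fun i j : Fin (m + 1) => algebraMap (ZMod p)[X] (RatFunc (ZMod p))
          (Y N m 1 (fun _ => 0) i j)).det ≠ 0 := by
      have h2 := det_Y_triv_ne N m (1 : (ZMod p)[X]) (fun _ => 0) one_ne_zero
        ((ZMod.natCast_eq_zero_iff _ _).2 hN) (fun _ => rfl) hfac
      have : (Matrix.of fun i j : Fin (m + 1) => algebraMap (ZMod p)[X] (RatFunc (ZMod p))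
          (Y N m 1 (fun _ => 0) i j))
          = (algebraMap (ZMod p)[X] (RatFunc (ZMod p))).mapMatrix
            (Matrix.of fun i j : Fin (m + 1) => Y N m (1 : (ZMod p)[X]) (fun _ => 0) i j) := by
        ext1 i j; rfl
      rw [this, ← RingHom.map_det]
      exact RatFunc.algebraMap_ne_zero h2
    intro j
    exact congrFun (vec_zero_of_det _ hdet c h1) j

/-- a full basis modulo `p` exists only for orders at most `p` -/
theorem order_le_of_fullModP {n : ℕ} {b : Fin (n + 1) → ℤ[X]} (h : FullModP n b p) : n ≤ p := by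
  obtain ⟨D, hD, y, -, hy⟩ := h
  by_contra hlt
  push Not at hlt
  -- every element is a combination of 1, ..., x^(p-1) over the constants
  have hspan : ∀ g : RatFunc (ZMod p), ∃ a : Fin p → RatFunc (ZMod p), (∀ i, D (a i) = 0) ∧
      g = ∑ i, a i * RatFunc.X ^ (i : ℕ) := by
    intro g
    have hpoly : ∀ f : (ZMod p)[X], ∃ a : Fin p → RatFunc (ZMod p), (∀ i, D (a i) = 0) ∧
        algebraMap _ _ f = ∑ i, a i * RatFunc.X ^ (i : ℕ) := by
      intro f
      induction f using Polynomial.induction_on' with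
      | add f g hf hg =>
        obtain ⟨a, ha, ha'⟩ := hf
        obtain ⟨b, hb, hb'⟩ := hg
        refine ⟨fun i => a i + b i, fun i => by rw [map_add, ha, hb, add_zero], ?_⟩
        rw [map_add, ha', hb', ← Finset.sum_add_distrib]
        exact Finset.sum_congr rfl fun i _ => by ring
      | monomial s c =>
        have hs : s % p < p := Nat.mod_lt _ hp.out.pos
        refine ⟨fun i => if (i : ℕ) = s % p then algebraMap _ _ (C c * X ^ (p * (s / p))) else 0,
          fun i => ?_, ?_⟩
        · simp only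
          split_ifs
          · rw [D_poly D hD, derivative_C_mul, derivative_X_pow]
            simp
          · exact map_zero D
        · rw [Finset.sum_eq_single ⟨s % p, hs⟩]
          · simp only [if_true]
            rw [← RatFunc.algebraMap_X, ← map_pow, ← map_mul]
            congr 1
            rw [mul_assoc, ← pow_add, Nat.div_add_mod, C_mul_X_pow_eq_monomial]
          · intro i _ hi
            have h : ¬ ((i : ℕ) = s % p) := fun h => hi (Fin.ext h)
            simp only [if_neg h, zero_mul]
          · intro h; exact absurd (Finset.mem_univ _) h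
    obtain ⟨a, ha, ha'⟩ := hpoly (g.num * g.denom ^ (p - 1))
    have hd : algebraMap (ZMod p)[X] (RatFunc (ZMod p)) g.denom ≠ 0 :=
      RatFunc.algebraMap_ne_zero (RatFunc.denom_ne_zero g)
    have hdc : D ((algebraMap (ZMod p)[X] (RatFunc (ZMod p)) g.denom) ^ p) = 0 := by
      rw [← map_pow, D_poly D hD, derivative_pow]
      simp
    refine ⟨fun i => ((algebraMap (ZMod p)[X] (RatFunc (ZMod p)) g.denom) ^ p)⁻¹ * a i,
      fun i => ?_, ?_⟩
    · rw [Derivation.leibniz, ha, smul_zero, zero_add, Derivation.leibniz_inv, hdc]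
      simp
    · have h1 : ∑ i, ((algebraMap (ZMod p)[X] (RatFunc (ZMod p)) g.denom) ^ p)⁻¹ * a i *
          RatFunc.X ^ (i : ℕ) = ((algebraMap (ZMod p)[X] (RatFunc (ZMod p)) g.denom) ^ p)⁻¹ *
            ∑ i, a i * RatFunc.X ^ (i : ℕ) := by
        rw [Finset.mul_sum]
        exact Finset.sum_congr rfl fun i _ => by ring
      rw [h1, ← ha', map_mul, map_pow]
      conv_lhs => rw [← RatFunc.num_div_denom g]
      have hpp : (algebraMap (ZMod p)[X] (RatFunc (ZMod p)) g.denom) ^ p
          = (algebraMap (ZMod p)[X] (RatFunc (ZMod p)) g.denom) ^ (p - 1) *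
            algebraMap (ZMod p)[X] (RatFunc (ZMod p)) g.denom := by
        rw [← pow_succ, Nat.sub_add_cancel hp.out.pos]
      rw [hpp]
      field_simp
  choose a ha ha' using fun j => hspan (y j)
  -- the constants form a field
  let K : Subfield (RatFunc (ZMod p)) :=
    { carrier := {z | D z = 0}
      mul_mem' := fun {u v} hu hv => by
        simp only [Set.mem_ofPred_eq] at hu hv ⊢
        rw [Derivation.leibniz, hu, hv]; simp
      one_mem' := by simp
      add_mem' := fun {u v} hu hv => by
        simp only [Set.mem_ofPred_eq] at hu hv ⊢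
        rw [map_add, hu, hv, add_zero]
      zero_mem' := by simp
      neg_mem' := fun {u} hu => by
        simp only [Set.mem_ofPred_eq] at hu ⊢
        rw [map_neg, hu, neg_zero]
      inv_mem' := fun u hu => by
        simp only [Set.mem_ofPred_eq] at hu ⊢
        rw [Derivation.leibniz_inv, hu]; simp }
  let M : Fin n → Fin p → K := fun j i => ⟨a j i, ha j i⟩
  have hdep : ¬ LinearIndependent K M := by
    intro hli
    have := hli.fintype_card_le_finrank
    simp at this
    omega
  rw [Fintype.not_linearIndependent_iff] at hdep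
  obtain ⟨g, hg, j0, hj0⟩ := hdep
  apply hj0
  have := hy (fun j => (g j : RatFunc (ZMod p))) (fun j => (g j).2) (by
    have h1 : ∀ i, ∑ j, (g j : RatFunc (ZMod p)) * a j i = 0 := by
      intro i
      have := congrArg (fun v : Fin p → K => ((v i : K) : RatFunc (ZMod p))) hg
      simpa [M] using this
    calc ∑ j, (g j : RatFunc (ZMod p)) * y j
        = ∑ j, (g j : RatFunc (ZMod p)) * ∑ i, a j i * RatFunc.X ^ (i : ℕ) :=
          Finset.sum_congr rfl fun j _ => by rw [← ha' j]
      _ = ∑ i, (∑ j, (g j : RatFunc (ZMod p)) * a j i) * RatFunc.X ^ (i : ℕ) := by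
          simp only [Finset.mul_sum, Finset.sum_mul]
          rw [Finset.sum_comm]
          exact Finset.sum_congr rfl fun i _ => Finset.sum_congr rfl fun j _ => by ring
      _ = 0 := by simp [h1]) j0
  exact Subtype.ext this

end Pool.Agent.N638.PC
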