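import Mathlib

set_option autoImplicit false
set_option linter.unusedSimpArgs false

/-! Row recursion for the scalar operator of `z = ∑ x^k (∂^k y)(x^N)`. -/

namespace Pool.Agent.N638.PC

open Polynomial

section rec
variable {R : Type*} [CommRing R]

/-- coefficients: `U^i D^i z = ∑_k Y i k * η k` -/
noncomputable def Y (N m : ℕ) (U : R[X]) (Q : ℕ → R[X]) : ℕ → ℕ → R[X]
  | 0, k => X ^ k
  | i + 1, k => U * derivative (Y N m U Q i k) - (i : R[X]) * derivative U * Y N m U Q i k
      + (if k = 0 then 0 else (N : R[X]) * X ^ (N - 1) * U * Y N m U Q i (k - 1))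
      - X ^ (N - 1) * Q k * Y N m U Q i m

theorem Y_map {S : Type*} [CommRing S] (f : R →+* S) (N m : ℕ) (U : R[X]) (Q : ℕ → R[X])
    (i k : ℕ) : (Y N m U Q i k).map f = Y N m (U.map f) (fun k => (Q k).map f) i k := by
  induction i generalizing k with
  | zero => simp [Y]
  | succ i ih =>
    simp only [Y, Polynomial.map_sub, Polynomial.map_add, Polynomial.map_mul, ih,
      Polynomial.map_natCast, Polynomial.map_pow, Polynomial.map_X, ← derivative_map]
    split_ifs <;> simp [ih]

/-- the case of a trivial system -/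
theorem Y_triv (N m : ℕ) (U : R[X]) (Q : ℕ → R[X]) (hN : (N : R) = 0) (hQ : ∀ k, Q k = 0)
    (i k : ℕ) : Y N m U Q i k = U ^ i * derivative^[i] (X ^ k) := by
  induction i generalizing k with
  | zero => simp [Y]
  | succ i ih =>
    have hN' : (N : R[X]) = 0 := by
      rw [← map_natCast (C : R →+* R[X]), hN, C_0]
    simp only [Y, hQ, hN', ih, mul_zero, zero_mul, sub_zero, Function.iterate_succ_apply',
      derivative_mul, derivative_pow, map_natCast]
    rcases i with _ | i
    · simp
    · split_ifs <;> (simp; ring)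

/-- coefficients (in the variable `τ`) of the bivariate lift -/
noncomputable def y (N m : ℕ) (u : R[X]) (q : ℕ → R[X]) : ℕ → ℕ → ℕ → R[X]
  | 0, k, s => if s = k then 1 else 0
  | i + 1, k, s => u * (((s : R[X]) - (i : R[X])) * y N m u q i k s
        + (N : R[X]) * X * derivative (y N m u q i k s))
      - (i : R[X]) * ((N : R[X]) * X * derivative u) * y N m u q i k s
      + (if k = 0 then 0 else (N : R[X]) * X * u * y N m u q i (k - 1) s)
      - X * q k * y N m u q i m s

theorem ev_y (N m : ℕ) (hN : 0 < N) (u : R[X]) (q : ℕ → R[X]) (i k : ℕ) (hk : k ≤ m) :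
    X ^ i * Y N m (expand R N u) (fun k => expand R N (q k)) i k
      = ∑ s ∈ Finset.range (m + 1), expand R N (y N m u q i k s) * X ^ s := by
  induction i generalizing k with
  | zero =>
    simp only [Y, y, pow_zero, one_mul]
    rw [Finset.sum_eq_single k]
    · simp
    · intro s _ hs; simp [hs]
    · intro h; exact absurd (Finset.mem_range.2 (by omega)) h
  | succ i ih =>
    obtain ⟨M, rfl⟩ : ∃ M, N = M + 1 := ⟨N - 1, by omega⟩
    have ihm := ih m le_rfl
    have ihk := ih k hk
    set U := expand R (M + 1) u with hU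
    set Yi := Y (M + 1) m U (fun k => expand R (M + 1) (q k)) i with hY
    have hXd : ∀ f : R[X], X ^ i * (X * derivative f)
        = X * derivative (X ^ i * f) - (i : R[X]) * (X ^ i * f) := by
      intro f
      rcases i with _ | i
      · simp
      · simp only [derivative_mul, derivative_X_pow, Nat.add_sub_cancel, Nat.cast_add, Nat.cast_one,
          map_add, map_natCast, map_one]
        ring
    have hdU : X * derivative U = expand R (M + 1) (((M + 1 : ℕ) : R[X]) * X * derivative u) := by
      rw [hU, derivative_expand]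
      simp only [map_mul, map_natCast, expand_X, Nat.add_sub_cancel]
      ring
    have hds : ∀ s, X * derivative (expand R (M + 1) (y (M + 1) m u q i k s) * X ^ s)
        = expand R (M + 1) ((s : R[X]) * y (M + 1) m u q i k s
          + ((M + 1 : ℕ) : R[X]) * X * derivative (y (M + 1) m u q i k s)) * X ^ s := by
      intro s
      rcases s with _ | s
      · simp only [pow_zero, mul_one, derivative_expand, map_add, map_mul, map_natCast, expand_X,
          Nat.add_sub_cancel, Nat.cast_zero, zero_mul, zero_add, map_zero]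
        ring
      · simp only [derivative_mul, derivative_expand, derivative_X_pow, map_add, map_mul,
          map_natCast, expand_X, Nat.add_sub_cancel, Nat.cast_add, Nat.cast_one, map_one]
        ring
    have e1 : X ^ (i + 1) * Y (M + 1) m U (fun k => expand R (M + 1) (q k)) (i + 1) k
        = U * (X * derivative (X ^ i * Yi k) - (i : R[X]) * (X ^ i * Yi k))
          - (i : R[X]) * (X * derivative U) * (X ^ i * Yi k)
          + (if k = 0 then 0 else ((M + 1 : ℕ) : R[X]) * X ^ (M + 1) * U * (X ^ i * Yi (k - 1)))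
          - X ^ (M + 1) * expand R (M + 1) (q k) * (X ^ i * Yi m) := by
      rw [← hXd]
      simp only [Y, Nat.add_sub_cancel, ← hY]
      split_ifs <;> ring
    rw [e1, ihk, ihm, hdU]
    have e2 : (if k = 0 then (0 : R[X]) else ((M + 1 : ℕ) : R[X]) * X ^ (M + 1) * U
          * (X ^ i * Yi (k - 1)))
        = ∑ s ∈ Finset.range (m + 1), (expand R (M + 1) (if k = 0 then 0 else
          ((M + 1 : ℕ) : R[X]) * X * u * y (M + 1) m u q i (k - 1) s)) * X ^ s := by
      split_ifs with h
      · simp
      · rw [ih (k - 1) (by omega), Finset.mul_sum]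
        refine Finset.sum_congr rfl fun s _ => ?_
        simp only [map_mul, map_natCast, expand_X, hU]
        ring
    rw [e2, derivative_sum, Finset.mul_sum, Finset.mul_sum, ← Finset.sum_sub_distrib,
      Finset.mul_sum, Finset.mul_sum, ← Finset.sum_sub_distrib, ← Finset.sum_add_distrib,
      Finset.mul_sum, ← Finset.sum_sub_distrib]
    refine Finset.sum_congr rfl fun s _ => ?_
    rw [hds]
    simp only [y, map_sub, map_add, map_mul, map_natCast, expand_X, hU]
    ring

theorem y_zero_gt (N m : ℕ) (u : R[X]) (q : ℕ → R[X]) (i : ℕ) (hi : i ≤ m) (k : ℕ) (hk : i < k) :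
    y N m u q i k 0 = 0 := by
  induction i generalizing k with
  | zero => simp only [y]; rw [if_neg (by omega)]
  | succ i ih =>
    simp only [y]
    rw [ih (by omega) k (by omega), ih (by omega) m (by omega)]
    rw [if_neg (by omega), ih (by omega) (k - 1) (by omega)]
    simp

theorem y_zero_diag (N m : ℕ) (u : R[X]) (q : ℕ → R[X]) (i : ℕ) (hi : i ≤ m) :
    y N m u q i i 0 = ((N : R[X]) * X * u) ^ i := by
  induction i with
  | zero => simp [y]
  | succ i ih =>
    simp only [y]
    rw [y_zero_gt N m u q i (by omega) (i + 1) (by omega),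
      y_zero_gt N m u q i (by omega) m (by omega)]
    rw [if_neg (by omega), Nat.add_sub_cancel, ih (by omega)]
    simp
    ring

end rec

section sep
variable {k : Type*} [Field k]

/-- evaluation of bivariate polynomials: `X ↦ x^N`, `τ ↦ x` -/
noncomputable def ev (k : Type*) [Field k] (N : ℕ) : k[X][X] →+* k[X] :=
  eval₂RingHom ((expand k N : k[X] →ₐ[k] k[X]) : k[X] →+* k[X]) X

theorem ev_apply (N : ℕ) (P : k[X][X]) (n : ℕ) (hn : P.natDegree < n) :
    ev k N P = ∑ s ∈ Finset.range n, expand k N (P.coeff s) * X ^ s := by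
  simp only [ev, coe_eval₂RingHom]
  rw [eval₂_eq_sum_range' _ hn]
  rfl

theorem ev_coeff_zero (N : ℕ) (hN : 0 < N) (P : k[X][X]) (hP : P.natDegree < N)
    (h : ev k N P = 0) : P.coeff 0 = 0 := by
  rw [ev_apply N P N hP] at h
  ext j
  have := congrArg (fun f => f.coeff (N * j)) h
  simp only [finsetSum_coeff, coeff_zero] at this
  rw [Finset.sum_eq_single 0] at this
  · rw [pow_zero, mul_one, coeff_expand hN, if_pos (dvd_mul_right _ _),
      Nat.mul_div_cancel_left _ hN] at this
    rw [this, coeff_zero]
  · intro s hs hs0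
    rw [coeff_mul_X_pow']
    split_ifs with h1
    · rw [coeff_expand hN, if_neg]
      intro h2
      have h3 : N ∣ s := by
        have := (Nat.dvd_sub (dvd_mul_right N j) h2)
        rwa [Nat.sub_sub_self h1] at this
      exact hs0 (Nat.eq_zero_of_dvd_of_lt h3 (Finset.mem_range.1 hs))
    · rfl
  · intro h1; exact absurd (Finset.mem_range.2 hN) h1

/-- nonvanishing of the determinant, case `N ≠ 0` in `k` -/
theorem det_Y_ne (N m : ℕ) (u : k[X]) (q : ℕ → k[X]) (hu : u ≠ 0) (hNk : (N : k) ≠ 0)
    (hNm : (m + 1) * m < N) :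
    (Matrix.of fun i j : Fin (m + 1) =>
      Y N m (expand k N u) (fun k' => expand k N (q k')) i j).det ≠ 0 := by
  intro h0
  have hN : 0 < N := by omega
  let P : Matrix (Fin (m + 1)) (Fin (m + 1)) k[X][X] := Matrix.of fun i j =>
    ∑ s ∈ Finset.range (m + 1), C (y N m u q i j s) * X ^ s
  have hcoeff : ∀ i j : Fin (m + 1), ∀ s ≤ m, (P i j).coeff s = y N m u q i j s := by
    intro i j s hs
    simp only [P, Matrix.of_apply, finsetSum_coeff, coeff_C_mul, coeff_X_pow]
    rw [Finset.sum_eq_single s]
    · simp
    · intro t _ ht; rw [if_neg (Ne.symm ht), mul_zero]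
    · intro h; exact absurd (Finset.mem_range.2 (by omega)) h
  have hdeg : ∀ i j, (P i j).natDegree ≤ m := by
    intro i j
    simp only [P, Matrix.of_apply]
    refine natDegree_sum_le_of_forall_le _ _ fun s hs => ?_
    have h1 := natDegree_C_mul_X_pow_le (y N m u q i j s) s
    have := Finset.mem_range.1 hs
    omega
  have hev : ∀ i j, ev k N (P i j) = X ^ (i : ℕ) *
      Y N m (expand k N u) (fun k' => expand k N (q k')) i j := by
    intro i j
    rw [ev_y N m hN u q i j (by have := j.2; omega)]
    rw [ev_apply N _ (m + 1) (by have := hdeg i j; omega)]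
    refine Finset.sum_congr rfl fun s hs => ?_
    rw [hcoeff i j s (by have := Finset.mem_range.1 hs; omega)]
  have hdet : ev k N P.det = 0 := by
    rw [RingHom.map_det]
    have : (ev k N).mapMatrix P = Matrix.of (fun i j : Fin (m + 1) => (X : k[X]) ^ (i : ℕ) *
        (Matrix.of fun i j : Fin (m + 1) =>
          Y N m (expand k N u) (fun k' => expand k N (q k')) i j) i j) := by
      ext1 i j
      simp only [RingHom.mapMatrix_apply, Matrix.map_apply, Matrix.of_apply]
      exact hev i j
    rw [this, Matrix.det_mul_column, h0, mul_zero]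
  have hPdeg : P.det.natDegree < N := by
    refine lt_of_le_of_lt ?_ hNm
    rw [Matrix.det_apply]
    refine natDegree_sum_le_of_forall_le _ _ fun σ _ => ?_
    refine (natDegree_smul_le _ _).trans ?_
    refine (natDegree_prod_le _ _).trans ?_
    refine (Finset.sum_le_sum fun i _ => hdeg _ _).trans ?_
    simp
  have h1 := ev_coeff_zero N hN _ hPdeg hdet
  have h2 : P.det.coeff 0 = (Matrix.of fun i j : Fin (m + 1) => y N m u q i j 0).det := by
    rw [← constantCoeff_apply, RingHom.map_det]
    congr 1
    ext1 i j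
    simp only [RingHom.mapMatrix_apply, Matrix.map_apply, Matrix.of_apply, constantCoeff_apply]
    exact hcoeff i j 0 (Nat.zero_le _)
  rw [h2, Matrix.det_of_isLowerTriangular] at h1
  · rw [Finset.prod_eq_zero_iff] at h1
    obtain ⟨i, -, hi⟩ := h1
    simp only [Matrix.of_apply] at hi
    rw [y_zero_diag N m u q i (by have := i.2; omega)] at hi
    have : (N : k[X]) ≠ 0 := by
      rw [← map_natCast (C : k →+* k[X])]
      exact fun h => hNk (C_eq_zero.1 h)
    exact (pow_ne_zero _ (mul_ne_zero (mul_ne_zero this X_ne_zero) hu)) hi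
  · intro i j hij
    simp only [Matrix.of_apply]
    have hij' : (i : ℕ) < (j : ℕ) := by simpa using hij
    exact y_zero_gt N m u q i (by have := i.2; omega) j hij'

/-- nonvanishing of the determinant, trivial case -/
theorem det_Y_triv_ne (N m : ℕ) (U : k[X]) (Q : ℕ → k[X]) (hU : U ≠ 0) (hNk : (N : k) = 0)
    (hQ : ∀ k', Q k' = 0) (hm : ((m.factorial : ℕ) : k) ≠ 0) :
    (Matrix.of fun i j : Fin (m + 1) => Y N m U Q i j).det ≠ 0 := by
  rw [Matrix.det_of_isUpperTriangular]
  · rw [Finset.prod_ne_zero_iff]
    intro i _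
    simp only [Matrix.of_apply, Y_triv N m U Q hNk hQ, iterate_derivative_X_pow_eq_natCast_mul,
      Nat.descFactorial_self, Nat.sub_self, pow_zero, mul_one]
    refine mul_ne_zero (pow_ne_zero _ hU) ?_
    rw [← map_natCast (C : k →+* k[X])]
    intro h
    refine hm ?_
    obtain ⟨c, hc⟩ := Nat.factorial_dvd_factorial (show (i : ℕ) ≤ m by have := i.2; omega)
    rw [hc, Nat.cast_mul, C_eq_zero.1 h, zero_mul]
  · intro i j hij
    simp only [Matrix.of_apply]
    have hij' : (j : ℕ) < (i : ℕ) := by simpa using hij
    rw [Y_triv N m U Q hNk hQ, iterate_derivative_X_pow_eq_natCast_mul,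
      Nat.descFactorial_eq_zero_iff_lt.2 hij']
    simp

end sep

end Pool.Agent.N638.PC
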