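import Pool.Agent.N638.PC.Diff

set_option autoImplicit false
set_option linter.unusedSimpArgs false

/-! Transfer of full bases of solutions between `b` (in the variable `X = x^N`) and `b'`. -/

namespace Pool.Agent.N638.PC

open Polynomial

/-- the relation defining the new operator -/
def Rel (N m : ℕ) (U : ℤ[X]) (Q : ℕ → ℤ[X]) (b' : Fin (m + 2) → ℤ[X]) : Prop :=
  ∀ k ≤ m, ∑ i : Fin (m + 2), b' i * U ^ (m + 1 - (i : ℕ)) * Y N m U Q i k = 0

section
variable {F : Type*} [Field F] (D : Derivation ℤ F F) (x : F) (hx : D x = 1)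
  (N m : ℕ) (U : ℤ[X]) (Q : ℕ → ℤ[X])

include hx in
theorem sol_of_rel (hU : aeval x U ≠ 0) (b' : Fin (m + 2) → ℤ[X]) (hb' : Rel N m U Q b')
    (η : ℕ → F) (h : ∀ k ≤ m, dl D x N m U Q η k = 0) :
    ∑ i : Fin (m + 2), aeval x (b' i) * (⇑D)^[(i : ℕ)] (S x N m U Q 0 η) = 0 := by
  have h1 : aeval x U ^ (m + 1) *
      ∑ i : Fin (m + 2), aeval x (b' i) * (⇑D)^[(i : ℕ)] (S x N m U Q 0 η) = 0 := by
    rw [Finset.mul_sum]
    have h2 : ∀ i : Fin (m + 2), aeval x U ^ (m + 1) *
        (aeval x (b' i) * (⇑D)^[(i : ℕ)] (S x N m U Q 0 η))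
        = ∑ k ∈ Finset.range (m + 1),
            aeval x (b' i * U ^ (m + 1 - (i : ℕ)) * Y N m U Q i k) * η k := by
      intro i
      have hi : (i : ℕ) ≤ m + 1 := by have := i.2; omega
      have e1 : aeval x U ^ (m + 1) = aeval x U ^ (m + 1 - (i : ℕ)) * aeval x U ^ (i : ℕ) := by
        rw [← pow_add]; congr 1; omega
      rw [e1]
      have := S_iter D x hx N m U Q η h i
      calc _ = aeval x (b' i) * aeval x U ^ (m + 1 - (i : ℕ)) *
            (aeval x U ^ (i : ℕ) * (⇑D)^[(i : ℕ)] (S x N m U Q 0 η)) := by ring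
        _ = _ := by
            rw [this, S, Finset.mul_sum]
            refine Finset.sum_congr rfl fun k _ => ?_
            simp only [map_mul, map_pow]
            ring
    simp only [h2]
    rw [Finset.sum_comm]
    refine Finset.sum_eq_zero fun k hk => ?_
    rw [← Finset.sum_mul, ← map_sum, hb' k (by have := Finset.mem_range.1 hk; omega), map_zero,
      zero_mul]
  exact (mul_eq_zero.1 h1).resolve_left (pow_ne_zero _ hU)

theorem vec_zero_of_det {r : ℕ} (M : Matrix (Fin r) (Fin r) F) (hM : M.det ≠ 0) (v : Fin r → F)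
    (h : ∀ i, ∑ k, M i k * v k = 0) : v = 0 := by
  by_contra hv
  exact hM (Matrix.exists_mulVec_eq_zero_iff.1 ⟨v, hv, funext fun i => h i⟩)

theorem D_iter_const_mul (c : F) (hc : D c = 0) (z : F) (i : ℕ) :
    (⇑D)^[i] (c * z) = c * (⇑D)^[i] z := by
  induction i generalizing z with
  | zero => rfl
  | succ i ih =>
    rw [Function.iterate_succ_apply, Function.iterate_succ_apply, Derivation.leibniz, hc, smul_zero,
      add_zero, smul_eq_mul, ih]

theorem D_iter_sum {ι : Type*} (s : Finset ι) (z : ι → F) (i : ℕ) :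
    (⇑D)^[i] (∑ j ∈ s, z j) = ∑ j ∈ s, (⇑D)^[i] (z j) := by
  induction i generalizing z with
  | zero => rfl
  | succ i ih =>
    rw [Function.iterate_succ_apply, map_sum, ih]
    rfl

include hx in
/-- forward direction: from solutions of `b` in the variable `X = x^N` to solutions of `b'` -/
theorem forward {E : Type*} [Field E] (DE : Derivation ℤ E E) (xE : E) (φ : E →+* F)
    (hφx : φ xE = x ^ N) (hφD : ∀ g, D (φ g) = (N : F) * x ^ (N - 1) * φ (DE g))
    (b : Fin (m + 2) → ℤ[X]) (e T : ℤ) (u : ℤ[X]) (hNeT : (N : ℤ) = e * T)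
    (hb : b (Fin.last (m + 1)) = C e * u)
    (hU : U = expand ℤ N u) (hQ : ∀ k : Fin (m + 1), Q k = expand ℤ N (C T * b k.castSucc))
    (hU0 : aeval x U ≠ 0) (heE : (e : E) ≠ 0)
    (hdet : (Matrix.of fun i j : Fin (m + 1) => aeval x (Y N m U Q i j)).det ≠ 0)
    (b' : Fin (m + 2) → ℤ[X]) (hb' : Rel N m U Q b')
    (h : FullBasis xE DE (m + 1) b) : FullBasis x D (m + 1) b' := by
  obtain ⟨y, hy1, hy2⟩ := h
  let η : Fin (m + 1) → ℕ → F := fun j k => φ ((⇑DE)^[k] (y j))
  have hφa : ∀ f : ℤ[X], φ (aeval xE f) = aeval x (expand ℤ N f) := by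
    intro f
    rw [expand_aeval, ← hφx]
    exact (Polynomial.hom_eval₂ f (algebraMap ℤ E) φ xE).trans (by
      simp only [aeval_def]
      congr 1
      exact RingHom.ext_int _ _)
  have hη : ∀ j, ∀ k ≤ m, dl D x N m U Q (η j) k = 0 := by
    intro j k hk
    simp only [dl]
    split_ifs with hkm
    · simp only [η]
      rw [hφD, Function.iterate_succ_apply']
      ring
    · have hkm' : k = m := by omega
      subst hkm'
      have h1 := congrArg φ (hy1 j)
      rw [map_sum, map_zero] at h1
      simp only [map_mul, hφa] at h1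
      rw [Fin.sum_univ_castSucc, hb] at h1
      simp only [Fin.val_last, Fin.val_castSucc, map_mul, expand_C, aeval_C, ← hU] at h1
      have h2 : ∑ j' ∈ Finset.range (k + 1), aeval x (Q j') * η j j'
          = (T : F) * ∑ i : Fin (k + 1), aeval x (expand ℤ N (b i.castSucc)) *
            φ ((⇑DE)^[(i : ℕ)] (y j)) := by
        rw [Finset.sum_range, Finset.mul_sum]
        refine Finset.sum_congr rfl fun i _ => ?_
        rw [hQ]
        simp only [map_mul, expand_C, aeval_C, η]
        simp
        ring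
      rw [h2]
      have h3 : D (η j k) = (N : F) * x ^ (N - 1) * φ ((⇑DE)^[k + 1] (y j)) := by
        simp only [η]
        rw [hφD, Function.iterate_succ_apply']
      rw [h3]
      have hN' : (N : F) = (e : F) * (T : F) := by
        have := congrArg (fun z : ℤ => (z : F)) hNeT
        simpa using this
      have h4 : (algebraMap ℤ F) e = (e : F) := by simp
      rw [h4] at h1
      rw [hN']
      linear_combination (x ^ (N - 1) * (T : F)) * h1
  refine ⟨fun j => S x N m U Q 0 (η j), fun j => sol_of_rel D x hx N m U Q hU0 b' hb' _ (hη j), ?_⟩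
  intro c hc hsum
  -- all derivatives
  have h1 : ∀ i : ℕ, ∑ j, c j * S x N m U Q i (η j) = 0 := by
    intro i
    have e1 := congrArg (fun z => aeval x U ^ i * (⇑D)^[i] z) hsum
    simp only at e1
    rw [D_iter_sum, Finset.mul_sum] at e1
    have e2 : (⇑D)^[i] (0 : F) = 0 := by
      induction i with
      | zero => rfl
      | succ i ih => rw [Function.iterate_succ_apply, map_zero]; exact Function.iterate_fixed (map_zero D) i
    rw [e2, mul_zero] at e1
    rw [← e1]
    refine Finset.sum_congr rfl fun j _ => ?_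
    rw [D_iter_const_mul D _ (hc j), ← S_iter D x hx N m U Q (η j) (hη j) i]
    ring
  have h2 : ∀ i : ℕ, ∑ k : Fin (m + 1), aeval x (Y N m U Q i k) * (∑ j, c j * η j k) = 0 := by
    intro i
    have := h1 i
    simp only [S, Finset.mul_sum] at this
    rw [Finset.sum_comm, Finset.sum_range] at this
    rw [← this]
    refine Finset.sum_congr rfl fun k _ => ?_
    rw [Finset.mul_sum]
    exact Finset.sum_congr rfl fun j _ => by ring
  have h3 : (fun k : Fin (m + 1) => ∑ j, c j * η j k) = 0 :=
    vec_zero_of_det _ hdet _ fun i => h2 i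
  -- independence in E
  have hblast : aeval xE (b (Fin.last (m + 1))) ≠ 0 := by
    rw [hb, map_mul, aeval_C]
    refine mul_ne_zero (by simpa using heE) ?_
    intro h0
    apply hU0
    rw [hU, ← hφa, h0, map_zero]
  have hind : ∀ v : Fin (m + 1) → E,
      (∀ k : Fin (m + 1), ∑ j, v j * (⇑DE)^[(k : ℕ)] (y j) = 0) → v = 0 := by
    refine lin_indep_of_system DE (fun k l => if (k : ℕ) + 1 = l then 1 else
      if (k : ℕ) = m then - aeval xE (b l.castSucc) / aeval xE (b (Fin.last (m + 1))) else 0)
      (fun j k => (⇑DE)^[(k : ℕ)] (y j)) ?_ ?_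
    · intro j k
      rw [← Function.iterate_succ_apply' (⇑DE) (k : ℕ) (y j)]
      by_cases hk : (k : ℕ) = m
      · have e1 := hy1 j
        rw [Fin.sum_univ_castSucc] at e1
        simp only [Fin.val_last, Fin.val_castSucc] at e1
        have e2 : ∀ l : Fin (m + 1), ¬ (m + 1 = (l : ℕ)) := fun l => by have := l.2; omega
        simp only [hk, e2, if_false, if_true]
        have e4 : ∑ l : Fin (m + 1), aeval xE (b (Fin.last (m + 1))) *
              (- aeval xE (b l.castSucc) / aeval xE (b (Fin.last (m + 1))) *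
              (⇑DE)^[(l : ℕ)] (y j))
            = - ∑ l : Fin (m + 1), aeval xE (b l.castSucc) * (⇑DE)^[(l : ℕ)] (y j) := by
          rw [← Finset.sum_neg_distrib]
          refine Finset.sum_congr rfl fun l _ => ?_
          field_simp
        have e3 : aeval xE (b (Fin.last (m + 1))) * ((⇑DE)^[m + 1] (y j) -
            ∑ l : Fin (m + 1), - aeval xE (b l.castSucc) / aeval xE (b (Fin.last (m + 1))) *
              (⇑DE)^[(l : ℕ)] (y j)) = 0 := by
          rw [mul_sub, Finset.mul_sum, e4]
          linear_combination e1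
        exact sub_eq_zero.1 ((mul_eq_zero.1 e3).resolve_left hblast)
      · have hk' : (k : ℕ) + 1 < m + 1 := by have := k.2; omega
        rw [Finset.sum_eq_single ⟨(k : ℕ) + 1, hk'⟩]
        · simp
        · intro l _ hl
          rw [if_neg, if_neg hk, zero_mul]
          intro h
          exact hl (Fin.ext h.symm)
        · intro h; exact absurd (Finset.mem_univ _) h
    · intro c hc h0 j
      have := h0 0
      exact hy2 c hc (by simpa using this) j
  have hdetE : (Matrix.of fun k j : Fin (m + 1) => (⇑DE)^[(k : ℕ)] (y j)).det ≠ 0 := by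
    intro h0
    obtain ⟨v, hv, hv0⟩ := Matrix.exists_mulVec_eq_zero_iff.2 h0
    refine hv (hind v fun k => ?_)
    have := congrFun hv0 k
    simp only [Matrix.mulVec, dotProduct, Matrix.of_apply, Pi.zero_apply] at this
    rw [← this]
    exact Finset.sum_congr rfl fun j _ => mul_comm _ _
  have hdetF : (Matrix.of fun k j : Fin (m + 1) => η j k).det ≠ 0 := by
    have : (Matrix.of fun k j : Fin (m + 1) => η j k)
        = φ.mapMatrix (Matrix.of fun k j : Fin (m + 1) => (⇑DE)^[(k : ℕ)] (y j)) := by
      ext k j; rfl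
    rw [this, ← RingHom.map_det]
    exact fun h => hdetE ((map_eq_zero φ).1 h)
  have h4 := vec_zero_of_det _ hdetF c (fun k => by
    have := congrFun h3 k
    simp only [Pi.zero_apply] at this
    rw [← this]
    exact Finset.sum_congr rfl fun j _ => mul_comm _ _)
  intro j
  exact congrFun h4 j

end

end Pool.Agent.N638.PC
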